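import Pool.Agent.H28.TWO.Two

/-!
# The two record comparison for a family of pairs

`two_a`: jets of the first kind. `two_b`: jets of the second kind. `TwO.dig`: other digits.
-/

set_option autoImplicit false

namespace Pool.TWO28

open Finset Real MvPolynomial
open Pool.Agent.H49.Ent Pool.Agent.H32.Dense Pool.STK Pool.KA Pool.KSAT Pool.K2S Pool.PB Pool.GEN
open Pool.S6C Pool.RCD Pool.LA91 Pool.OWN68 Pool.AJW Pool.PN18 Pool.LPK12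
open Pool.GRD (LbP)
open Pool.LP30 (paQ)
open Pool.LPJ30 (jtR)
open Pool.LPT30 (twQ NgW NtW)

variable {m : ℕ} {S : PCl m} {C₀ : ℝ} {c : ℕ → Fin m} {r : ℕ} {sn : ℕ → ℝ → ℝ} {G : Set ℝ}
  {v w vn X φ lam kf : ℝ} {v₀ vn₀ : ℕ → ℝ} {K : ℕ}
  {Ψ : Fm2 m} {Kd K₁ : ℕ} {κ₂ : Fin m}
  {lamΨ e E₂ r₂ p₂ En Rn Pn : ℝ} {E rd p n : ℕ → ℝ} {i j : ℕ} {lr : ℝ}

/-- **The data**: two windows `vn < v`, the near path, the family of pairs. -/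
structure TwC (S : PCl m) (c : ℕ → Fin m) (r : ℕ) (sn : ℕ → ℝ → ℝ) (G : Set ℝ)
    (v w vn X φ lam kf : ℝ) (v₀ vn₀ : ℕ → ℝ) (K : ℕ) (nH nV : ℕ → ℝ) (Ψ : Fm2 m) (Kd K₁ : ℕ)
    (κ₂ : Fin m) (lamΨ e E₂ r₂ p₂ En Rn Pn Pc : ℝ) (E rd p n : ℕ → ℝ) (j : ℕ) (lr ε : ℝ) :
    Prop where
  hr : 1 ≤ r
  ch : ChG S c (r + 1) sn G
  H : JfN r sn G v w X φ lam kf v₀ K
  Hn : JfN r sn G vn v X φ lam kf vn₀ K
  pa : PaN r sn v X φ nH nV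
  ps : PsL Ψ c r Kd ((range (r + 1)).image c) κ₂ v lamΨ e E₂ r₂ p₂ E rd p n
  dc : Dcp2 Ψ ((range r).image c) ((range (r + 1)).image c) κ₂ K₁ vn v En Rn Pn e
  ex2 : ∀ N : ℝ, Exs S (qJet m ((range (r + 1)).image c) κ₂ j vn Pc N)
  e0 : 0 < e
  eφ : e ≤ φ / 16
  ε0 : 0 < ε
  eε : e ≤ ε / (448 * ((r + 1) * (j + 1)))
  L : LvN sn r j v vn X φ lr
  P : φ / 8 ≤ min Pn p₂

/-- **The comparison for the family**, from the one for codes. -/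
theorem TwC.gen {nH nV : ℕ → ℝ} {Pc ε : ℝ} (D : TwC S c r sn G v w vn X φ lam kf v₀ vn₀ K nH nV Ψ
    Kd K₁ κ₂ lamΨ e E₂ r₂ p₂ En Rn Pn Pc E rd p n j lr ε) (htm : TmC S C₀) {y κ : ℝ}
    (hvy : v ≤ y) (hy : y ≤ 1) {n₁ n₂ m₁ m₂ : ℝ} {B : Type} {Qb : Qt m B}
    (HN : NgP S (paQ m c r v (fun l => sn l v) nH nV)
      ((qJet m ((range r).image c) (c r) i v (sn r v) n₁).prod
        (qJet m ((range (r + 1)).image c) κ₂ j vn Pc n₂)) Qb v y κ) (hb : Exs S Qb)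
    (hN : PrN sn r i j v vn X φ lr (min (p r) (sn r v)) (min Pn Pc) (min Pn p₂) n₁ n₂)
    (M1 : Ffr S v (paQ m c r v (fun l => sn l v) nH nV) Ψ Qb
      ((ox1 (c r) v m₁ i).pr (ox2 κ₂ v m₂ j)) e (4 * (ε / 14))) (k : ℝ) :
    TwO S Ψ (c r) κ₂ v i j n₁ n₂ m₁ m₂ y (paQ m c r v (fun l => sn l v) nH nV) e k
      (κ + k + ε) := by
  obtain ⟨uv, rv, hrv, hcv⟩ := D.ch.ch v D.H.vG
  have hφ := D.H.φ0
  have hε := D.ε0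
  have he := D.e0
  have heφ := D.eφ
  obtain ⟨hA, hAn⟩ := pan_jet htm D.ch D.H D.Hn D.pa
  have hh : 0 < ε / 14 := by positivity
  have heh : e ≤ ε / 14 / (32 * ((r + 1) * (j + 1))) := by
    refine D.eε.trans (le_of_eq ?_)
    rw [div_div]
    congr 1
    ring
  have hN' : PrN sn r i j v vn X φ lr (min (sn r v) (p r)) (min Pc Pn) (min Pn p₂) n₁ n₂ := by
    rw [min_comm (sn r v), min_comm Pc]
    exact hN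
  have x1 := fam_to htm D.hr D.ch D.H D.Hn hA hAn D.ps D.dc he heφ hh heh D.L D.P
    (le_refl n₁) (le_refl n₂) hN'
  have x2 := fam_fr htm D.hr D.ch D.H D.Hn hvy hy hA hAn D.ps D.dc he heφ hh heh D.L D.P
    (le_refl n₁) (le_refl n₂) hN hN.s
  have p1 := D.H.paF htm D.ch (fun l hl => by linarith [D.pa.lh l hl])
    (fun l hl => by linarith [D.pa.lv l hl]) D.pa.uh D.pa.uv hh
  have hxp : Exs S (paQ m c r v (fun l => sn l v) nH nV) :=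
    exs_qjets fun l x y' j' _ => exs_jet (hrv l (by omega)) (hcv.att l x (by omega))
  have hxa : Exs S ((qJet m ((range r).image c) (c r) i v (sn r v) n₁).prod
      (qJet m ((range (r + 1)).image c) κ₂ j vn Pc n₂)) :=
    (exs_jet (hrv r (Nat.lt_succ_self r)) (hcv.att r (Nat.zero_le r) (Nat.lt_succ_self r))).prod
      (D.ex2 _)
  have key := two_core htm (k := k) HN hxp hxa hb he le_rfl
    (p1.mono (by linarith) le_rfl) M1 x1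
    ((F1.up hvy hy p1).mono (by linarith) le_rfl) x2
  have e1 : κ + k + (ε / 14 + 4 * (ε / 14) + 4 * (ε / 14) + ε / 14 + 4 * (ε / 14)) =
      κ + k + ε := by ring
  rw [e1] at key
  exact key

/-- **The comparison for the family**, first kind: `i < a`, `j < b`, digits natural at `o`. -/
theorem two_a {nH nV : ℕ → ℝ} {Pc ε : ℝ} (D : TwC S c r sn G v w vn X φ lam kf v₀ vn₀ K nH nV Ψ
    Kd K₁ κ₂ lamΨ e E₂ r₂ p₂ En Rn Pn Pc E rd p n j lr ε) (htm : TmC S C₀) {y o κ : ℝ}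
    (hvy : v ≤ y) (hy : y ≤ 1) {Tn : ℝ → ℝ} (hPc : Pc = Tn vn) {kB kU : Fin 0 → Fin m}
    {oB oU : Fin 0 → ℕ} {TB TU : Fin 0 → ℝ → ℝ} {nB nW : Fin 0 → ℝ}
    (HN : NtW S c r (fun _ : Fin 1 => c r) (fun _ => i) kB oB sn (fun _ => sn r) TB
      (fun _ : Fin 1 => κ₂) (fun _ => j) (fun _ => Tn) kU oU TU nH nV nB nW v vn v y o κ)
    {m₁ m₂ : ℝ} (h₁ : sn r y - i * y ≤ m₁) (h₂ : Tn y - j * y ≤ m₂)
    (hN : PrN sn r i j v vn X φ lr (min (p r) (sn r v)) (min Pn Pc) (min Pn p₂)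
      (sn r o - i * o) (Tn o - j * o))
    (hM : PrN sn r i j v vn X φ lr (min (p r) (sn r v)) (min Pn Pc) (min Pn p₂)
      (sn r y - i * y) (Tn y - j * y)) (hs : m₂ + j * v + 3 * φ ≤ min Pn p₂ + X) (k : ℝ) :
    TwO S Ψ (c r) κ₂ v i j (sn r o - i * o) (Tn o - j * o) m₁ m₂ y
      (paQ m c r v (fun l => sn l v) nH nV) e k (κ + k + ε) := by
  obtain ⟨uv, rv, hrv, hcv⟩ := D.ch.ch v D.H.vG
  have hφ := D.H.φ0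
  have hε := D.ε0
  have hh : 0 < ε / 14 := by positivity
  have heh : e ≤ ε / 14 / (32 * ((r + 1) * (j + 1))) := by
    refine D.eε.trans (le_of_eq ?_)
    rw [div_div]
    congr 1
    ring
  obtain ⟨hA, hAn⟩ := pan_jet htm D.ch D.H D.Hn D.pa
  have h1 := ngp_a htm HN
  rw [← hPc] at h1
  refine D.gen htm hvy hy h1 ((exs_jet (hrv r (Nat.lt_succ_self r))
    (hcv.att r (Nat.zero_le r) (Nat.lt_succ_self r))).prod (D.ex2 _)) hN ?_ k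
  exact fam_fr htm D.hr D.ch D.H D.Hn le_rfl hcv.u0.le hA hAn D.ps D.dc D.e0 D.eφ hh heh D.L D.P
    h₁ h₂ hM hs

/-- **The comparison for the family**, second kind: `i = a`, `j = b`, free digits. -/
theorem two_b {nH nV : ℕ → ℝ} {Pc ε : ℝ} (D : TwC S c r sn G v w vn X φ lam kf v₀ vn₀ K nH nV Ψ
    Kd K₁ κ₂ lamΨ e E₂ r₂ p₂ En Rn Pn Pc E rd p n j lr ε) (htm : TmC S C₀) {y o κ : ℝ}
    (hvy : v ≤ y) (hy : y ≤ 1) {Tn : ℝ → ℝ} (hPc : Pc = Tn vn) {kA kT : Fin 0 → Fin m}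
    {oA oT : Fin 0 → ℕ} {TA TT : Fin 0 → ℝ → ℝ} {n₁ n₂ : ℝ}
    (HN : NtW S c r kA oA (fun _ : Fin 1 => c r) (fun _ => i) sn TA (fun _ => sn r)
      kT oT TT (fun _ : Fin 1 => κ₂) (fun _ => j) (fun _ => Tn) nH nV (fun _ => n₁) (fun _ => n₂)
      v vn v y o κ)
    (hN : PrN sn r i j v vn X φ lr (min (p r) (sn r v)) (min Pn Pc) (min Pn p₂) n₁ n₂)
    (m₁ m₂ k : ℝ) :
    TwO S Ψ (c r) κ₂ v i j n₁ n₂ m₁ m₂ y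
      (paQ m c r v (fun l => sn l v) nH nV) e k (κ + k + ε) := by
  have hε := D.ε0
  have h1 := ngp_b htm HN
  rw [← hPc] at h1
  exact D.gen htm hvy hy h1 exs_tQ hN (ffr_tQ htm (by positivity)) k

/-- The digits of a jet are few bits given other digits. -/
theorem ch_dig {Ω : Type} [Fintype Ω] {q : Ω → ℝ} (hq : IsLaw q) (x : Ω → ℝ) {J : ℕ}
    {n n' γ : ℝ} (hn : n ≤ n' + γ) (hγ : 0 ≤ γ) :
    CH q (fun ω => ⌊(2 : ℝ) ^ (n * J) * x ω⌋) (fun ω => ⌊(2 : ℝ) ^ (n' * J) * x ω⌋) ≤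
      γ * J * Real.log 2 + Real.log 9 := by
  have hJ0 : (0 : ℝ) ≤ J := Nat.cast_nonneg J
  obtain ⟨A, hA⟩ : ∃ A : ℝ, A = (2 : ℝ) ^ ((n - n') * J) := ⟨_, rfl⟩
  have hA0 : 0 < A := by
    rw [hA]
    positivity
  have h2 : (1 : ℝ) ≤ (2 : ℝ) ^ (γ * J) := Real.one_le_rpow one_le_two (mul_nonneg hγ hJ0)
  have h3 : A ≤ (2 : ℝ) ^ (γ * J) := by
    rw [hA]
    refine Real.rpow_le_rpow_of_exponent_le one_le_two ?_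
    exact mul_le_mul_of_nonneg_right (by linarith) hJ0
  have e1 : (2 : ℝ) ^ (n * J) = A * (2 : ℝ) ^ (n' * J) := by
    rw [hA, ← Real.rpow_add two_pos]
    ring_nf
  have h1 : CH q (fun ω => ⌊(2 : ℝ) ^ (n * J) * x ω⌋) (fun ω => ⌊(2 : ℝ) ^ (n' * J) * x ω⌋) ≤
      Real.log (2 * ((⌈2 * (2 : ℝ) ^ (γ * J)⌉₊ + 1 : ℕ) : ℝ) + 1) := by
    refine CH_phi hq _ _ (fun v : ℤ => A * (v : ℝ)) fun ω => ?_
    have h4 := Int.floor_le ((2 : ℝ) ^ (n' * J) * x ω)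
    have h5 := Int.lt_floor_add_one ((2 : ℝ) ^ (n' * J) * x ω)
    have e2 : (2 : ℝ) ^ (n * J) * x ω - A * ((⌊(2 : ℝ) ^ (n' * J) * x ω⌋ : ℤ) : ℝ) =
        A * ((2 : ℝ) ^ (n' * J) * x ω - ((⌊(2 : ℝ) ^ (n' * J) * x ω⌋ : ℤ) : ℝ)) := by
      rw [e1]
      ring
    rw [e2, abs_mul, abs_of_pos hA0]
    have h6 : |(2 : ℝ) ^ (n' * J) * x ω - ((⌊(2 : ℝ) ^ (n' * J) * x ω⌋ : ℤ) : ℝ)| ≤ 1 := by
      rw [abs_le]
      constructor <;> linarith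
    calc A * |(2 : ℝ) ^ (n' * J) * x ω - ((⌊(2 : ℝ) ^ (n' * J) * x ω⌋ : ℤ) : ℝ)| ≤ A * 1 :=
          mul_le_mul_of_nonneg_left h6 hA0.le
      _ ≤ (2 : ℝ) ^ (γ * J) := by linarith
  refine h1.trans ?_
  have h5 : ((⌈2 * (2 : ℝ) ^ (γ * J)⌉₊ + 1 : ℕ) : ℝ) ≤ 2 * (2 : ℝ) ^ (γ * J) + 2 := by
    have := (Nat.ceil_lt_add_one (a := 2 * (2 : ℝ) ^ (γ * J)) (by positivity)).le
    push_cast
    linarith
  have h6 : 2 * ((⌈2 * (2 : ℝ) ^ (γ * J)⌉₊ + 1 : ℕ) : ℝ) + 1 ≤ (2 : ℝ) ^ (γ * J) * 9 := by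
    linarith
  have h8 : (0 : ℝ) < 2 * ((⌈2 * (2 : ℝ) ^ (γ * J)⌉₊ + 1 : ℕ) : ℝ) + 1 := by
    have : (0 : ℝ) ≤ ((⌈2 * (2 : ℝ) ^ (γ * J)⌉₊ + 1 : ℕ) : ℝ) := Nat.cast_nonneg _
    linarith
  refine (Real.log_le_log h8 h6).trans (le_of_eq ?_)
  rw [Real.log_mul (by positivity) (by norm_num), Real.log_rpow two_pos]

/-- **Other digits.** -/
theorem two_dig (htm : TmC S C₀) {κ₁ κ₂ : Fin m} {x y : ℝ} {i₁ i₂ : ℕ}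
    {n₁ n₂ n₁' n₂' m₁ m₂ γ₁ γ₂ e₁ k κ κ' : ℝ} {U : Type} {Qp : Qt m U}
    (HT : TwO S Ψ κ₁ κ₂ x i₁ i₂ n₁ n₂ m₁ m₂ y Qp e₁ k κ) (h1 : |n₁' - n₁| ≤ γ₁)
    (h2 : |n₂' - n₂| ≤ γ₂) (hκ : κ + 2 * (γ₁ + γ₂) * Real.log 2 < κ') :
    TwO S Ψ κ₁ κ₂ x i₁ i₂ n₁' n₂' m₁ m₂ y Qp e₁ k κ' := by
  obtain ⟨s, hs⟩ : ∃ s : ℝ, s = κ' - (κ + 2 * (γ₁ + γ₂) * Real.log 2) := ⟨_, rfl⟩
  have hs0 : 0 < s := by
    rw [hs]
    linarith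
  have g1 : 0 ≤ γ₁ := (abs_nonneg _).trans h1
  have g2 : 0 ≤ γ₂ := (abs_nonneg _).trans h2
  have a1 := abs_le.1 h1
  have a2 := abs_le.1 h2
  obtain ⟨J₀, hJ₀⟩ := exists_nat_ge (4 * Real.log 9 / s)
  intro K₀
  refine Bas.mono J₀ ((HT K₀).and (Pool.GRW.tmc_bas htm one_pos)) ?_
  rintro J hJ F A ⟨HT, hA, -⟩ V C z z' G₁ G₂ cc hc TX x₀ hx TY y₀ hy pa hpa
  have key := HT V C z z' G₁ G₂ cc hc TX x₀ hx TY y₀ hy pa hpa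
  obtain ⟨q, hq⟩ : ∃ q : F.Ω → ℝ, q = Pool.Agent.H49.Ent.cond F.p A True := ⟨_, rfl⟩
  have hql : IsLaw q := by
    rw [hq]
    exact isLaw_cond F.isLaw hA
  have h0 := hql.nonneg
  have hJ0 : (0 : ℝ) ≤ J := Nat.cast_nonneg J
  have hJr : (J₀ : ℝ) ≤ J := by exact_mod_cast hJ
  have hLJ : 4 * Real.log 9 ≤ s * J := by
    have := hJ₀.trans hJr
    rw [div_le_iff₀ hs0] at this
    linarith
  rw [← hq] at key ⊢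
  obtain ⟨x₁, hx₁⟩ : ∃ x₁ : F.Ω → ℝ, x₁ = fun ω => ojet F κ₁ i₁ (G₁ (z' (slam F ⌊x * J⌋₊ ω))) ω :=
    ⟨_, rfl⟩
  obtain ⟨x₂, hx₂⟩ : ∃ x₂ : F.Ω → ℝ, x₂ = fun ω => ojet F κ₂ i₂ (G₂ (z' (slam F ⌊x * J⌋₊ ω))) ω :=
    ⟨_, rfl⟩
  have o1 : ∀ (N : ℝ) (ω : F.Ω), oj F κ₁ z' G₁ ⌊x * J⌋₊ N i₁ ω = ⌊(2 : ℝ) ^ (N * J) * x₁ ω⌋ :=
    fun N ω => by
      rw [hx₁]
      rfl
  have o2 : ∀ (N : ℝ) (ω : F.Ω), oj F κ₂ z' G₂ ⌊x * J⌋₊ N i₂ ω = ⌊(2 : ℝ) ^ (N * J) * x₂ ω⌋ :=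
    fun N ω => by
      rw [hx₂]
      rfl
  obtain ⟨C₁, hC₁⟩ : ∃ C₁ : F.Ω → (ℤ × ℤ) × (U × (TX × (ℕ × F.ζ))), C₁ = fun ω =>
    ((oj F κ₁ z' G₁ ⌊x * J⌋₊ m₁ i₁ ω, oj F κ₂ z' G₂ ⌊x * J⌋₊ m₂ i₂ ω),
      (pa ω, (x₀ ω, F.W ω))) := ⟨_, rfl⟩
  obtain ⟨C₂, hC₂⟩ : ∃ C₂ : F.Ω → U × (TY × (ℕ × F.ζ)), C₂ = fun ω => (pa ω, (y₀ ω, F.W ω)) :=
    ⟨_, rfl⟩
  rw [← hC₁, ← hC₂] at key ⊢
  simp only [o1, o2] at key ⊢
  obtain ⟨X, hX⟩ : ∃ X : F.Ω → ℤ × ℤ, X = fun ω => (⌊(2 : ℝ) ^ (n₁ * J) * x₁ ω⌋,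
    ⌊(2 : ℝ) ^ (n₂ * J) * x₂ ω⌋) := ⟨_, rfl⟩
  obtain ⟨Y, hY⟩ : ∃ Y : F.Ω → ℤ × ℤ, Y = fun ω => (⌊(2 : ℝ) ^ (n₁' * J) * x₁ ω⌋,
    ⌊(2 : ℝ) ^ (n₂' * J) * x₂ ω⌋) := ⟨_, rfl⟩
  rw [← hX] at key
  rw [← hY]
  have b1 : CH q Y X ≤ (γ₁ + γ₂) * J * Real.log 2 + 2 * Real.log 9 := by
    have c1 := CH_subadd h0 (fun ω => ⌊(2 : ℝ) ^ (n₁' * J) * x₁ ω⌋)
      (fun ω => ⌊(2 : ℝ) ^ (n₂' * J) * x₂ ω⌋) X
    rw [← hY] at c1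
    have c2 : CH q (fun ω => ⌊(2 : ℝ) ^ (n₁' * J) * x₁ ω⌋) X ≤
        γ₁ * J * Real.log 2 + Real.log 9 :=
      le_trans (CH_mono_cond h0 fun ω ω' _ _ hh => by
        rw [hX] at hh
        exact (Prod.ext_iff.mp hh).1)
        (ch_dig hql x₁ (n := n₁') (n' := n₁) (J := J) (by linarith [a1.2]) g1)
    have c3 : CH q (fun ω => ⌊(2 : ℝ) ^ (n₂' * J) * x₂ ω⌋) X ≤
        γ₂ * J * Real.log 2 + Real.log 9 :=
      le_trans (CH_mono_cond h0 fun ω ω' _ _ hh => by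
        rw [hX] at hh
        exact (Prod.ext_iff.mp hh).2)
        (ch_dig hql x₂ (n := n₂') (n' := n₂) (J := J) (by linarith [a2.2]) g2)
    have c4 : (γ₁ + γ₂) * J * Real.log 2 = γ₁ * J * Real.log 2 + γ₂ * J * Real.log 2 := by ring
    rw [c4]
    linarith only [c1, c2, c3]
  have b2 : CH q X Y ≤ (γ₁ + γ₂) * J * Real.log 2 + 2 * Real.log 9 := by
    have c1 := CH_subadd h0 (fun ω => ⌊(2 : ℝ) ^ (n₁ * J) * x₁ ω⌋)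
      (fun ω => ⌊(2 : ℝ) ^ (n₂ * J) * x₂ ω⌋) Y
    rw [← hX] at c1
    have c2 : CH q (fun ω => ⌊(2 : ℝ) ^ (n₁ * J) * x₁ ω⌋) Y ≤
        γ₁ * J * Real.log 2 + Real.log 9 :=
      le_trans (CH_mono_cond h0 fun ω ω' _ _ hh => by
        rw [hY] at hh
        exact (Prod.ext_iff.mp hh).1)
        (ch_dig hql x₁ (n := n₁) (n' := n₁') (J := J) (by linarith [a1.1]) g1)
    have c3 : CH q (fun ω => ⌊(2 : ℝ) ^ (n₂ * J) * x₂ ω⌋) Y ≤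
        γ₂ * J * Real.log 2 + Real.log 9 :=
      le_trans (CH_mono_cond h0 fun ω ω' _ _ hh => by
        rw [hY] at hh
        exact (Prod.ext_iff.mp hh).2)
        (ch_dig hql x₂ (n := n₂) (n' := n₂') (J := J) (by linarith [a2.1]) g2)
    have c4 : (γ₁ + γ₂) * J * Real.log 2 = γ₁ * J * Real.log 2 + γ₂ * J * Real.log 2 := by ring
    rw [c4]
    linarith only [c1, c2, c3]
  have d1 := CH_le_add h0 Y X C₁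
  have d2 : CH q Y (fun ω => (X ω, C₁ ω)) ≤ CH q Y X :=
    CH_mono_cond h0 fun ω ω' _ _ hh => (Prod.ext_iff.mp hh).1
  have d3 := CH_le_add h0 X Y C₂
  have d4 : CH q X (fun ω => (Y ω, C₂ ω)) ≤ CH q X Y :=
    CH_mono_cond h0 fun ω ω' _ _ hh => (Prod.ext_iff.mp hh).1
  have e1 : κ' * J = κ * J + 2 * ((γ₁ + γ₂) * J * Real.log 2) + s * J := by
    rw [hs]
    ring
  rw [e1]
  linarith only [key, b1, b2, d1, d2, d3, d4, hLJ]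

end Pool.TWO28
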