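import Pool.Agent.H28.TWO.Trs

/-!
# The jets over the labels of a family and the codes

`fto_u`, `ffr_u`: the jets over the first label, from the change of the labels. `fto_n`, `ffr_n`: the
jets over the second label, which is a label of an early window plus a closed polynomial over the
chain.
-/

set_option autoImplicit false

namespace Pool.TWO28

open Finset Real MvPolynomial
open Pool.Agent.H49.Ent Pool.Agent.H32.Dense Pool.STK Pool.KA Pool.KSAT Pool.K2S Pool.PB Pool.GEN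
open Pool.S6C Pool.RCD Pool.LA91 Pool.OWN68 Pool.AJW Pool.PN18 Pool.LPK12
open Pool.GRD (LbP)

theorem fl_le {J : ℕ} {p e e' : ℝ} (h : e ≤ e') : ⌊(p - e') * J⌋₊ ≤ ⌊(p - e) * J⌋₊ :=
  Nat.floor_le_floor (mul_le_mul_of_nonneg_right (by linarith) (Nat.cast_nonneg J))

section

variable {m : ℕ} {S : PCl m} {C₀ : ℝ} {U : Type} {Qp : Qt m U} {Ψ : Fm2 m} {a : ℝ}

/-- The jet over the first label is a jet over the chain. -/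
theorem psl_P {c : ℕ → Fin m} {r K : ℕ} {I₂ : Finset (Fin m)} {κ₂ : Fin m}
    {v lam e E₂ r₂ p₂ : ℝ} {E rd p n : ℕ → ℝ} (hΨ : PsL Ψ c r K I₂ κ₂ v lam e E₂ r₂ p₂ E rd p n)
    {i : ℕ} {n₁ e' : ℝ} (hee : e ≤ e') : ∃ M J₁ : ℕ, ∀ J ≥ J₁, ∀ (F : Fam m J) (A : F.Ω → Prop)
      (V C : Type) (z : PtT F → V) (z' : LnT F → V) (G₁ G₂ : V → MvPolynomial (Option (Fin m)) ℝ)
      (cc : LnT F → C), Ψ J F A V C z z' G₁ G₂ cc → ∀ K₀ : ℕ, M ≤ K₀ →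
      (qJet m ((range r).image c) (c r) i v (p r) n₁).P K₀ e' J F A
        ((ox1 (c r) v n₁ i) J F V z' G₁ G₂) := by
  obtain ⟨M, J₁, hcnt⟩ := cnt_jetX m K i n₁ (E r + e) (rd r + e) v
  refine ⟨M + K, J₁, ?_⟩
  intro J hJ F A V C z z' G₁ G₂ cc hc K₀ hK₀
  obtain ⟨⟨g, hlb, rfl, -⟩, -⟩ := hΨ.1 J F A V C z z' G₁ G₂ cc hc
  have hl := hlb r (Nat.zero_le r) (Nat.lt_succ_self r)
  refine ⟨?_, V, z, z', fun x => g x r, (LbP.of hl).mono (Finset.Subset.refl _) (by omega)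
    (fl_le hee), fun ω _ => rfl⟩
  refine (hcnt J hJ F _ (c r) _ A V z z' (fun x => g x r) hl).trans (Real.exp_le_exp.2
    (mul_le_mul_of_nonneg_right ?_ (Nat.cast_nonneg J)))
  exact_mod_cast (by omega : M ≤ K₀)

/-- **From the code to the jet over the first label.** -/
theorem fto_u (htm : TmC S C₀) {c : ℕ → Fin m} {r K : ℕ} {I₂ : Finset (Fin m)} {κ₂ : Fin m}
    {v lam e E₂ r₂ p₂ : ℝ} {E rd p n : ℕ → ℝ} (hΨ : PsL Ψ c r K I₂ κ₂ v lam e E₂ r₂ p₂ E rd p n)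
    {i : ℕ} {pc N n₁ e' η : ℝ} (hee : e ≤ e')
    (h : F1 S (fun J F => ptr F J) (vg a) (fun _ F => F.T)
      (Qp.prod (qJet m ((range r).image c) (c r) i v pc N))
      (qJet m ((range r).image c) (c r) i v (p r) n₁) e' η) :
    Fto S a Qp Ψ (qJet m ((range r).image c) (c r) i v pc N) (ox1 (c r) v n₁ i) e' η := by
  obtain ⟨M, J₁, hP⟩ := psl_P (i := i) (n₁ := n₁) hΨ hee
  intro K₀
  refine Bas.mono J₁ ((h (K₀ + M)).and (Pool.GRW.tmc_bas htm one_pos)) ?_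
  rintro J hJ F A ⟨H, hA, -⟩ V C z z' G₁ G₂ cc hc pa b hpa hb
  have h0 := (isLaw_cond F.isLaw hA).nonneg
  have hx := hP J hJ F A V C z z' G₁ G₂ cc hc (K₀ + M) (by omega)
  obtain ⟨V₁, z₁, hz₁, g1⟩ := H (fun ω => (pa ω, b ω)) _ ⟨Qp.mono (by omega) le_rfl hpa,
    (qJet m _ _ _ _ _ _).mono (by omega) le_rfl hb⟩ hx
  refine ⟨V₁, z₁, hz₁, le_trans (CH_mono_cond h0 fun ω ω' _ _ hh => ?_) g1⟩
  simp only [Prod.mk.injEq] at hh ⊢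
  exact ⟨⟨hh.2.1, hh.1⟩, hh.2.2⟩

/-- **From the jet over the first label to the code.** -/
theorem ffr_u (htm : TmC S C₀) {c : ℕ → Fin m} {r K : ℕ} {I₂ : Finset (Fin m)} {κ₂ : Fin m}
    {v lam e E₂ r₂ p₂ : ℝ} {E rd p n : ℕ → ℝ} (hΨ : PsL Ψ c r K I₂ κ₂ v lam e E₂ r₂ p₂ E rd p n)
    {i : ℕ} {pc N n₁ e' η : ℝ} (hee : e ≤ e')
    (h : F1 S (fun J F => ptr F J) (vg a) (fun _ F => F.T)
      (Qp.prod (qJet m ((range r).image c) (c r) i v (p r) n₁))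
      (qJet m ((range r).image c) (c r) i v pc N) e' η) :
    Ffr S a Qp Ψ (qJet m ((range r).image c) (c r) i v pc N) (ox1 (c r) v n₁ i) e' η := by
  obtain ⟨M, J₁, hP⟩ := psl_P (i := i) (n₁ := n₁) hΨ hee
  intro K₀
  refine Bas.mono J₁ ((h (K₀ + M)).and (Pool.GRW.tmc_bas htm one_pos)) ?_
  rintro J hJ F A ⟨H, hA, -⟩ V C z z' G₁ G₂ cc hc pa b hpa hb
  have h0 := (isLaw_cond F.isLaw hA).nonneg
  have hx := hP J hJ F A V C z z' G₁ G₂ cc hc (K₀ + M) (by omega)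
  obtain ⟨V₁, z₁, hz₁, g1⟩ := H (fun ω => (pa ω, (ox1 (c r) v n₁ i) J F V z' G₁ G₂ ω)) b
    ⟨Qp.mono (by omega) le_rfl hpa, hx⟩ ((qJet m _ _ _ _ _ _).mono (by omega) le_rfl hb)
  refine ⟨V₁, z₁, hz₁, le_trans (CH_mono_cond h0 fun ω ω' _ _ hh => ?_) g1⟩
  simp only [Prod.mk.injEq] at hh ⊢
  exact ⟨⟨hh.2.1, hh.1⟩, hh.2.2⟩

/-- **From the code to the jet over the second label.** -/
theorem fto_n (htm : TmC S C₀) {I₁ I₂ : Finset (Fin m)} {k κ₂ : Fin m} (hk : k ∈ I₁)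
    {K K₁ j : ℕ} {vn v E₂ r₂ p₂ En Rn Pn P N n₂ pc e e' e'' η₂ η₃ δ : ℝ} (he : 0 < e')
    (hle : e ≤ e') (hee : 2 * e' ≤ e'') (hP0 : e'' ≤ P) (hP : P ≤ Pn) (hP' : P ≤ p₂) (hδ : 0 < δ)
    (hF : F1 S (fun J F => ptr F J) (vg a) (fun _ F => F.T) Qp (qJet m I₁ k j v P n₂) e'' η₃)
    (hlb : ∀ (J : ℕ) (F : Fam m J) (A : F.Ω → Prop) (V C : Type) (z : PtT F → V) (z' : LnT F → V)
      (G₁ G₂ : V → MvPolynomial (Option (Fin m)) ℝ) (cc : LnT F → C),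
      Ψ J F A V C z z' G₁ G₂ cc →
      LbOK F I₂ κ₂ K ⌊E₂ * J⌋₊ J ⌊v * J⌋₊ ⌊r₂ * J⌋₊ ⌊(p₂ - e) * J⌋₊ A z z' G₂)
    (hD : Dcp2 Ψ I₁ I₂ κ₂ K₁ vn v En Rn Pn e)
    (hG : F1 S (fun J F => ptr F J) (vg a) (fun _ F => F.T)
      (Qp.prod (qJet m I₂ κ₂ j vn pc N)) (qJet m I₂ κ₂ j vn Pn n₂) e' η₂) :
    Fto S a Qp Ψ (qJet m I₂ κ₂ j vn pc N) (ox2 κ₂ v n₂ j) e' (η₂ + (η₃ + δ)) := by
  obtain ⟨M, J₁, hcnt⟩ := cnt_jetX m K₁ j n₂ En Rn vn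
  intro K₀
  refine Bas.mono J₁ (((hG (K₀ + K₁ + M)).and (dif_key (κ₂ := κ₂) (I₂ := I₂) (K := K) (K' := K₁)
    (K₁ := K₁) (v := v) (v' := vn) (E := E₂) (E' := En) (R := r₂) (R' := Rn) htm hk he hee hP0 hP'
    hP hδ hF K₀)).and (Pool.GRW.tmc_bas htm one_pos)) ?_
  rintro J hJ F A ⟨⟨HG, HD⟩, hA, -⟩ V C z z' G₁ G₂ cc hΨ pa b hpa hb
  obtain ⟨V₀, z₀, z₀', G₀, H, h1, h2, h3, h4⟩ := hD J F A V C z z' G₁ G₂ cc hΨ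
  have hl := (hlb J F A V C z z' G₁ G₂ cc hΨ).mono (Finset.Subset.refl _) le_rfl le_rfl le_rfl
    (fl_le hle)
  have h1' := h1.mono (Finset.Subset.refl _) le_rfl le_rfl le_rfl (fl_le hle)
  have h0 := (isLaw_cond F.isLaw hA).nonneg
  obtain ⟨w, hw⟩ : ∃ w : F.Ω → ℤ, w = fun ω =>
    ⌊(2 : ℝ) ^ (n₂ * J) * ojet F κ₂ j (G₀ (z₀' (slam F ⌊vn * J⌋₊ ω))) ω⌋ := ⟨_, rfl⟩
  have hwP : (qJet m I₂ κ₂ j vn Pn n₂).P (K₀ + K₁ + M) e' J F A w := by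
    refine ⟨?_, V₀, z₀, z₀', G₀, (LbP.of h1').mono (Finset.Subset.refl _) (by omega) le_rfl,
      fun ω _ => by rw [hw]⟩
    rw [hw]
    refine (hcnt J hJ F _ κ₂ _ A V₀ z₀ z₀' G₀ h1).trans (Real.exp_le_exp.2
      (mul_le_mul_of_nonneg_right ?_ (Nat.cast_nonneg J)))
    exact_mod_cast (by omega : M ≤ K₀ + K₁ + M)
  obtain ⟨V₁, z₁, hz₁, g1⟩ := HG (fun ω => (pa ω, b ω)) w ⟨Qp.mono (by omega) le_rfl hpa,
    (qJet m _ _ _ _ _ _).mono (by omega) le_rfl hb⟩ hwP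
  obtain ⟨V₂, z₂, hz₂, g2⟩ := HD V V₀ V z z' G₂ z₀ z₀' G₀ z z' H hl h1' hl.cls h2 h3 h4 pa hpa
  refine ⟨V₁ × V₂, fun ω => (z₁ ω, z₂ ω), hz₁.join hz₂, ?_⟩
  have k1 : CH (Pool.Agent.H49.Ent.cond F.p A True) w
      (fun ω => (b ω, (pa ω, ((z₁ ω, z₂ ω), F.T ω)))) ≤ η₂ * J := by
    refine le_trans (CH_mono_cond h0 fun ω ω' _ _ hh => ?_) g1
    simp only [Prod.mk.injEq] at hh ⊢
    exact ⟨⟨hh.2.1, hh.1⟩, hh.2.2.1.1, hh.2.2.2⟩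
  have k2 : CH (Pool.Agent.H49.Ent.cond F.p A True)
      (fun ω => ⌊(2 : ℝ) ^ (n₂ * J) * ojet F κ₂ j (G₂ (z' (slam F ⌊v * J⌋₊ ω))) ω⌋)
      (fun ω => (w ω, (b ω, (pa ω, ((z₁ ω, z₂ ω), F.T ω))))) ≤ (η₃ + δ) * J := by
    rw [hw]
    refine le_trans (CH_mono_cond h0 fun ω ω' _ _ hh => ?_) g2
    simp only [Prod.mk.injEq] at hh ⊢
    exact ⟨hh.1, hh.2.2.1, hh.2.2.2.1.2, hh.2.2.2.2⟩
  have k3 := CH_le_add h0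
    (fun ω => ⌊(2 : ℝ) ^ (n₂ * J) * ojet F κ₂ j (G₂ (z' (slam F ⌊v * J⌋₊ ω))) ω⌋) w
    (fun ω => (b ω, (pa ω, ((z₁ ω, z₂ ω), F.T ω))))
  have k4 : (η₂ + (η₃ + δ)) * J = η₂ * J + (η₃ + δ) * J := by ring
  rw [k4]
  exact k3.trans (add_le_add k1 k2)

/-- **From the jet over the second label to the code.** -/
theorem ffr_n (htm : TmC S C₀) {I₁ I₂ : Finset (Fin m)} {k κ₂ : Fin m} (hk : k ∈ I₁)
    {K K₁ j : ℕ} {vn v E₂ r₂ p₂ En Rn Pn P N n₂ pc e e' e'' η₂ η₃ δ : ℝ} (he : 0 < e')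
    (hle : e ≤ e') (hee : 2 * e' ≤ e'') (hP0 : e'' ≤ P) (hP : P ≤ Pn) (hP' : P ≤ p₂) (hδ : 0 < δ)
    (hF : F1 S (fun J F => ptr F J) (vg a) (fun _ F => F.T) Qp (qJet m I₁ k j v P n₂) e'' η₃)
    (hlb : ∀ (J : ℕ) (F : Fam m J) (A : F.Ω → Prop) (V C : Type) (z : PtT F → V) (z' : LnT F → V)
      (G₁ G₂ : V → MvPolynomial (Option (Fin m)) ℝ) (cc : LnT F → C),
      Ψ J F A V C z z' G₁ G₂ cc →
      LbOK F I₂ κ₂ K ⌊E₂ * J⌋₊ J ⌊v * J⌋₊ ⌊r₂ * J⌋₊ ⌊(p₂ - e) * J⌋₊ A z z' G₂)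
    (hD : Dcp2 Ψ I₁ I₂ κ₂ K₁ vn v En Rn Pn e)
    (hG : F1 S (fun J F => ptr F J) (vg a) (fun _ F => F.T)
      (Qp.prod (qJet m I₂ κ₂ j vn Pn n₂)) (qJet m I₂ κ₂ j vn pc N) e' η₂) :
    Ffr S a Qp Ψ (qJet m I₂ κ₂ j vn pc N) (ox2 κ₂ v n₂ j) e' ((η₃ + δ) + η₂) := by
  obtain ⟨M, J₁, hcnt⟩ := cnt_jetX m K₁ j n₂ En Rn vn
  intro K₀
  refine Bas.mono J₁ (((hG (K₀ + K₁ + M)).and (dif_key (κ₂ := κ₂) (I₂ := I₂) (K := K₁) (K' := K)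
    (K₁ := K₁) (v := vn) (v' := v) (E := En) (E' := E₂) (R := Rn) (R' := r₂) htm hk he hee hP0 hP
    hP' hδ hF K₀)).and (Pool.GRW.tmc_bas htm one_pos)) ?_
  rintro J hJ F A ⟨⟨HG, HD⟩, hA, -⟩ V C z z' G₁ G₂ cc hΨ pa b hpa hb
  obtain ⟨V₀, z₀, z₀', G₀, H, h1, h2, h3, h4⟩ := hD J F A V C z z' G₁ G₂ cc hΨ
  have hl := (hlb J F A V C z z' G₁ G₂ cc hΨ).mono (Finset.Subset.refl _) le_rfl le_rfl le_rfl
    (fl_le hle)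
  have h1' := h1.mono (Finset.Subset.refl _) le_rfl le_rfl le_rfl (fl_le hle)
  have h0 := (isLaw_cond F.isLaw hA).nonneg
  obtain ⟨w, hw⟩ : ∃ w : F.Ω → ℤ, w = fun ω =>
    ⌊(2 : ℝ) ^ (n₂ * J) * ojet F κ₂ j (G₀ (z₀' (slam F ⌊vn * J⌋₊ ω))) ω⌋ := ⟨_, rfl⟩
  obtain ⟨x, hx⟩ : ∃ x : F.Ω → ℤ, x = (ox2 κ₂ v n₂ j) J F V z' G₁ G₂ := ⟨_, rfl⟩
  have hwP : (qJet m I₂ κ₂ j vn Pn n₂).P (K₀ + K₁ + M) e' J F A w := by
    refine ⟨?_, V₀, z₀, z₀', G₀, (LbP.of h1').mono (Finset.Subset.refl _) (by omega) le_rfl,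
      fun ω _ => by rw [hw]⟩
    rw [hw]
    refine (hcnt J hJ F _ κ₂ _ A V₀ z₀ z₀' G₀ h1).trans (Real.exp_le_exp.2
      (mul_le_mul_of_nonneg_right ?_ (Nat.cast_nonneg J)))
    exact_mod_cast (by omega : M ≤ K₀ + K₁ + M)
  obtain ⟨V₁, z₁, hz₁, g1⟩ := HG (fun ω => (pa ω, w ω)) b ⟨Qp.mono (by omega) le_rfl hpa, hwP⟩
    ((qJet m _ _ _ _ _ _).mono (by omega) le_rfl hb)
  obtain ⟨V₂, z₂, hz₂, g2⟩ := HD V₀ V V z₀ z₀' G₀ z z' G₂ z z' (fun b => - H b) h1' hl hl.cls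
    (fun b => by rw [totalDegree_neg]; exact h2 b)
    (fun b x x' h5 h6 => by rw [map_neg, map_neg, h3 b x x' h5 h6])
    (fun ω hω => by
      rw [h4 ω hω]
      ring) pa hpa
  refine ⟨V₁ × V₂, fun ω => (z₁ ω, z₂ ω), hz₁.join hz₂, ?_⟩
  rw [← hx]
  have k1 : CH (Pool.Agent.H49.Ent.cond F.p A True) b
      (fun ω => (w ω, (x ω, (pa ω, ((z₁ ω, z₂ ω), F.T ω))))) ≤ η₂ * J := by
    refine le_trans (CH_mono_cond h0 fun ω ω' _ _ hh => ?_) g1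
    simp only [Prod.mk.injEq] at hh ⊢
    exact ⟨⟨hh.2.2.1, hh.1⟩, hh.2.2.2.1.1, hh.2.2.2.2⟩
  have k2 : CH (Pool.Agent.H49.Ent.cond F.p A True) w
      (fun ω => (x ω, (pa ω, ((z₁ ω, z₂ ω), F.T ω)))) ≤ (η₃ + δ) * J := by
    rw [hw]
    refine le_trans (CH_mono_cond h0 fun ω ω' _ _ hh => ?_) g2
    rw [hx] at hh
    simp only [Prod.mk.injEq] at hh ⊢
    exact ⟨hh.1, hh.2.1, hh.2.2.1.2, hh.2.2.2⟩
  have k3 := CH_le_add h0 b w (fun ω => (x ω, (pa ω, ((z₁ ω, z₂ ω), F.T ω))))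
  have k4 : ((η₃ + δ) + η₂) * J = (η₃ + δ) * J + η₂ * J := by ring
  rw [k4]
  exact k3.trans (add_le_add k2 k1)

end

end Pool.TWO28
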