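import Pool.Agent.H12.LPK.Ipr
import Pool.Agent.H18.PN.Nrp
import Pool.Agent.H18.PN.Stg6
import Pool.Agent.H30.LPT.Twg

/-!
# From codes of small accuracy to the labels of a family

`lhs_law`, `rhs_law`: the two sides of the comparison for one law. `Fto`, `Ffr`: a quantity of the
labels of a family of pairs is few bits given a code, and conversely, given a further quantity.
`NgP`: the comparison for the codes. `two_core`: the comparison for the labels of the family.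
-/

set_option autoImplicit false

namespace Pool.TWO28

open Finset Real MvPolynomial
open Pool.Agent.H49.Ent Pool.Agent.H32.Dense Pool.STK Pool.KA Pool.KSAT Pool.K2S Pool.PB Pool.GEN
open Pool.S6C Pool.RCD Pool.LA91 Pool.OWN68 Pool.AJW Pool.PN18 Pool.LPK12
open Pool.GRD (LbP)

section law

variable {Ω TX TM TP TV TW TU TU₁ TP' TV' : Type} [Fintype Ω] {q : Ω → ℝ}

/-- **The left side.** -/
theorem lhs_law (h0 : ∀ ω, 0 ≤ q ω) (X : Ω → TX) (M : Ω → TM) (pa : Ω → TP) (x : Ω → TV)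
    (w : Ω → TW) (u : Ω → TU) (u₁ : Ω → TU₁) (pb : Ω → TP') (x' : Ω → TV') {k η₁ η₂ η₃ : ℝ}
    (a : CH q x' x ≤ k) (b : CH q pb (fun ω => (pa ω, (x' ω, w ω))) ≤ η₁)
    (c : CH q u₁ (fun ω => (M ω, (pb ω, (x' ω, w ω)))) ≤ η₂)
    (d : CH q X (fun ω => (u ω, (pb ω, (x' ω, w ω)))) ≤ η₃) :
    CH q X (fun ω => (M ω, (pa ω, (x ω, w ω)))) ≤
      CH q u (fun ω => (u₁ ω, (pb ω, (x' ω, w ω)))) + (k + η₁ + η₂ + η₃) := by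
  obtain ⟨C, hC⟩ : ∃ C : Ω → TM × (TP × (TV × TW)), C = fun ω => (M ω, (pa ω, (x ω, w ω))) :=
    ⟨_, rfl⟩
  rw [← hC]
  have s1 := CH_le_add h0 X x' C
  have s2 := CH_le_add h0 X pb (fun ω => (x' ω, C ω))
  have s3 := CH_le_add h0 X u₁ (fun ω => (pb ω, (x' ω, C ω)))
  have s4 := CH_le_add h0 X u (fun ω => (u₁ ω, (pb ω, (x' ω, C ω))))
  have t1 : CH q x' C ≤ CH q x' x := CH_mono_cond h0 fun ω ω' _ _ hh => by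
    rw [hC] at hh
    simp only [Prod.mk.injEq] at hh
    exact hh.2.2.1
  have t2 : CH q pb (fun ω => (x' ω, C ω)) ≤ CH q pb (fun ω => (pa ω, (x' ω, w ω))) :=
    CH_mono_cond h0 fun ω ω' _ _ hh => by
      rw [hC] at hh
      simp only [Prod.mk.injEq] at hh ⊢
      exact ⟨hh.2.2.1, hh.1, hh.2.2.2.2⟩
  have t3 : CH q u₁ (fun ω => (pb ω, (x' ω, C ω))) ≤
      CH q u₁ (fun ω => (M ω, (pb ω, (x' ω, w ω)))) := CH_mono_cond h0 fun ω ω' _ _ hh => by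
    rw [hC] at hh
    simp only [Prod.mk.injEq] at hh ⊢
    exact ⟨hh.2.2.1, hh.1, hh.2.1, hh.2.2.2.2.2⟩
  have t4 : CH q u (fun ω => (u₁ ω, (pb ω, (x' ω, C ω)))) ≤
      CH q u (fun ω => (u₁ ω, (pb ω, (x' ω, w ω)))) := CH_mono_cond h0 fun ω ω' _ _ hh => by
    rw [hC] at hh
    simp only [Prod.mk.injEq] at hh ⊢
    exact ⟨hh.1, hh.2.1, hh.2.2.1, hh.2.2.2.2.2.2⟩
  have t5 : CH q X (fun ω => (u ω, (u₁ ω, (pb ω, (x' ω, C ω))))) ≤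
      CH q X (fun ω => (u ω, (pb ω, (x' ω, w ω)))) := CH_mono_cond h0 fun ω ω' _ _ hh => by
    rw [hC] at hh
    simp only [Prod.mk.injEq] at hh ⊢
    exact ⟨hh.1, hh.2.2.1, hh.2.2.2.1, hh.2.2.2.2.2.2.2⟩
  linarith

/-- **The right side.** -/
theorem rhs_law (h0 : ∀ ω, 0 ≤ q ω) (X : Ω → TX) (pa : Ω → TP) (y : Ω → TM)
    (w : Ω → TW) (u : Ω → TU) (pb : Ω → TP') (y₀ : Ω → TV) (y' : Ω → TV') {k η₁ η₂ : ℝ}
    (hy : ∀ ω ω', 0 < q ω → 0 < q ω' → y' ω = y' ω' → y ω = y ω')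
    (a : CH q y' y₀ ≤ k) (b : CH q pa (fun ω => (pb ω, (y' ω, w ω))) ≤ η₁)
    (c : CH q u (fun ω => (X ω, (pa ω, (y' ω, w ω)))) ≤ η₂) :
    CH q u (fun ω => (pb ω, (y₀ ω, w ω))) ≤
      CH q X (fun ω => (pa ω, (y ω, w ω))) + (k + η₁ + η₂) := by
  obtain ⟨C, hC⟩ : ∃ C : Ω → TP' × (TV × TW), C = fun ω => (pb ω, (y₀ ω, w ω)) := ⟨_, rfl⟩
  rw [← hC]
  have s1 := CH_le_add h0 u y' C
  have s2 := CH_le_add h0 u pa (fun ω => (y' ω, C ω))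
  have s3 := CH_le_add h0 u X (fun ω => (pa ω, (y' ω, C ω)))
  have t1 : CH q y' C ≤ CH q y' y₀ := CH_mono_cond h0 fun ω ω' _ _ hh => by
    rw [hC] at hh
    simp only [Prod.mk.injEq] at hh
    exact hh.2.1
  have t2 : CH q pa (fun ω => (y' ω, C ω)) ≤ CH q pa (fun ω => (pb ω, (y' ω, w ω))) :=
    CH_mono_cond h0 fun ω ω' _ _ hh => by
      rw [hC] at hh
      simp only [Prod.mk.injEq] at hh ⊢
      exact ⟨hh.2.1, hh.1, hh.2.2.2⟩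
  have t3 : CH q X (fun ω => (pa ω, (y' ω, C ω))) ≤ CH q X (fun ω => (pa ω, (y ω, w ω))) :=
    CH_mono_cond h0 fun ω ω' p1 p2 hh => by
      rw [hC] at hh
      simp only [Prod.mk.injEq] at hh ⊢
      exact ⟨hh.1, hy ω ω' p1 p2 hh.2.1, hh.2.2.2.2⟩
  have t4 : CH q u (fun ω => (X ω, (pa ω, (y' ω, C ω)))) ≤
      CH q u (fun ω => (X ω, (pa ω, (y' ω, w ω)))) := CH_mono_cond h0 fun ω ω' _ _ hh => by
    rw [hC] at hh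
    simp only [Prod.mk.injEq] at hh ⊢
    exact ⟨hh.1, hh.2.1, hh.2.2.1, hh.2.2.2.2.2⟩
  linarith

end law

/-- A quantity of the labels of a family of pairs. -/
abbrev LqT (m : ℕ) (T : Type) : Type 1 := ∀ (J : ℕ) (F : Fam m J) (V : Type), (LnT F → V) →
  (V → MvPolynomial (Option (Fin m)) ℝ) → (V → MvPolynomial (Option (Fin m)) ℝ) → F.Ω → T

/-- The jet over the first label. -/
noncomputable def ox1 {m : ℕ} (κ : Fin m) (v n : ℝ) (i : ℕ) : LqT m ℤ :=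
  fun J F _ z' G₁ _ ω => oj F κ z' G₁ ⌊v * J⌋₊ n i ω

/-- The jet over the second label. -/
noncomputable def ox2 {m : ℕ} (κ : Fin m) (v n : ℝ) (i : ℕ) : LqT m ℤ :=
  fun J F _ z' _ G₂ ω => oj F κ z' G₂ ⌊v * J⌋₊ n i ω

/-- Two quantities. -/
def LqT.pr {m : ℕ} {T T' : Type} (X : LqT m T) (X' : LqT m T') : LqT m (T × T') :=
  fun J F V z' G₁ G₂ ω => (X J F V z' G₁ G₂ ω, X' J F V z' G₁ G₂ ω)

/-- **From the code to the quantity of the labels.** -/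
def Fto {m : ℕ} (S : PCl m) (a : ℝ) {U B T : Type} (Qp : Qt m U) (Ψ : Fm2 m) (Qc : Qt m B)
    (X : LqT m T) (e η : ℝ) : Prop :=
  ∀ K : ℕ, Bas S (fun J F A => ∀ (V C : Type) (z : PtT F → V) (z' : LnT F → V)
    (G₁ G₂ : V → MvPolynomial (Option (Fin m)) ℝ) (c : LnT F → C), Ψ J F A V C z z' G₁ G₂ c →
    ∀ (pa : F.Ω → U) (b : F.Ω → B), Qp.P K e J F A pa → Qc.P K e J F A b →
    ∃ (V₁ : Type) (z₁ : F.Ω → V₁), Cl2 (ptr F J) (vg a J F) A z₁ ∧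
      CH (Pool.Agent.H49.Ent.cond F.p A True) (X J F V z' G₁ G₂)
        (fun ω => (b ω, (pa ω, (z₁ ω, F.T ω)))) ≤ η * J)

/-- **From the quantity of the labels to the code.** -/
def Ffr {m : ℕ} (S : PCl m) (a : ℝ) {U B T : Type} (Qp : Qt m U) (Ψ : Fm2 m) (Qc : Qt m B)
    (X : LqT m T) (e η : ℝ) : Prop :=
  ∀ K : ℕ, Bas S (fun J F A => ∀ (V C : Type) (z : PtT F → V) (z' : LnT F → V)
    (G₁ G₂ : V → MvPolynomial (Option (Fin m)) ℝ) (c : LnT F → C), Ψ J F A V C z z' G₁ G₂ c →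
    ∀ (pa : F.Ω → U) (b : F.Ω → B), Qp.P K e J F A pa → Qc.P K e J F A b →
    ∃ (V₁ : Type) (z₁ : F.Ω → V₁), Cl2 (ptr F J) (vg a J F) A z₁ ∧
      CH (Pool.Agent.H49.Ent.cond F.p A True) b
        (fun ω => (X J F V z' G₁ G₂ ω, (pa ω, (z₁ ω, F.T ω)))) ≤ η * J)

section pairs

variable {m : ℕ} {S : PCl m} {C₀ : ℝ} {a e e' η η' : ℝ} {U B B' T T' : Type} {Qp : Qt m U}
  {Ψ : Fm2 m} {Qc : Qt m B} {Qc' : Qt m B'} {X : LqT m T} {X' : LqT m T'}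

theorem Fto.mono (h : Fto S a Qp Ψ Qc X e η) (he : e' ≤ e) (hη : η ≤ η') :
    Fto S a Qp Ψ Qc X e' η' := by
  intro K
  refine Bas.mono 0 (h K) ?_
  rintro J - F A H V C z z' G₁ G₂ c hc pa b hpa hb
  obtain ⟨V₁, z₁, h1, h2⟩ := H V C z z' G₁ G₂ c hc pa b (Qp.mono le_rfl he hpa)
    (Qc.mono le_rfl he hb)
  exact ⟨V₁, z₁, h1, h2.trans (mul_le_mul_of_nonneg_right hη (Nat.cast_nonneg J))⟩

theorem Ffr.mono (h : Ffr S a Qp Ψ Qc X e η) (he : e' ≤ e) (hη : η ≤ η') :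
    Ffr S a Qp Ψ Qc X e' η' := by
  intro K
  refine Bas.mono 0 (h K) ?_
  rintro J - F A H V C z z' G₁ G₂ c hc pa b hpa hb
  obtain ⟨V₁, z₁, h1, h2⟩ := H V C z z' G₁ G₂ c hc pa b (Qp.mono le_rfl he hpa)
    (Qc.mono le_rfl he hb)
  exact ⟨V₁, z₁, h1, h2.trans (mul_le_mul_of_nonneg_right hη (Nat.cast_nonneg J))⟩

theorem Fto.pair (htm : TmC S C₀) (h : Fto S a Qp Ψ Qc X e η) (h' : Fto S a Qp Ψ Qc' X' e η') :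
    Fto S a Qp Ψ (Qc.prod Qc') (X.pr X') e (η + η') := by
  intro K
  refine Bas.mono 0 (((h K).and (h' K)).and (Pool.GRW.tmc_bas htm one_pos)) ?_
  rintro J - F A ⟨⟨H, H'⟩, hA, -⟩ V C z z' G₁ G₂ c hc pa b hpa hb
  have h0 := (isLaw_cond F.isLaw hA).nonneg
  obtain ⟨V₁, z₁, h1, h2⟩ := H V C z z' G₁ G₂ c hc pa (fun ω => (b ω).1) hpa hb.1
  obtain ⟨V₂, z₂, h3, h4⟩ := H' V C z z' G₁ G₂ c hc pa (fun ω => (b ω).2) hpa hb.2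
  refine ⟨V₁ × V₂, fun ω => (z₁ ω, z₂ ω), h1.join h3, ?_⟩
  have s := CH_subadd h0 (X J F V z' G₁ G₂) (X' J F V z' G₁ G₂)
    (fun ω => (b ω, (pa ω, ((z₁ ω, z₂ ω), F.T ω))))
  have t1 : CH (Pool.Agent.H49.Ent.cond F.p A True) (X J F V z' G₁ G₂)
      (fun ω => (b ω, (pa ω, ((z₁ ω, z₂ ω), F.T ω)))) ≤ η * J :=
    le_trans (CH_mono_cond h0 fun ω ω' _ _ hh => by
      simp only [Prod.mk.injEq] at hh ⊢
      exact ⟨by rw [hh.1], hh.2.1, hh.2.2.1.1, hh.2.2.2⟩) h2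
  have t2 : CH (Pool.Agent.H49.Ent.cond F.p A True) (X' J F V z' G₁ G₂)
      (fun ω => (b ω, (pa ω, ((z₁ ω, z₂ ω), F.T ω)))) ≤ η' * J :=
    le_trans (CH_mono_cond h0 fun ω ω' _ _ hh => by
      simp only [Prod.mk.injEq] at hh ⊢
      exact ⟨by rw [hh.1], hh.2.1, hh.2.2.1.2, hh.2.2.2⟩) h4
  have e1 : (η + η') * J = η * J + η' * J := by ring
  rw [e1]
  exact s.trans (add_le_add t1 t2)

theorem Ffr.pair (htm : TmC S C₀) (h : Ffr S a Qp Ψ Qc X e η) (h' : Ffr S a Qp Ψ Qc' X' e η') :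
    Ffr S a Qp Ψ (Qc.prod Qc') (X.pr X') e (η + η') := by
  intro K
  refine Bas.mono 0 (((h K).and (h' K)).and (Pool.GRW.tmc_bas htm one_pos)) ?_
  rintro J - F A ⟨⟨H, H'⟩, hA, -⟩ V C z z' G₁ G₂ c hc pa b hpa hb
  have h0 := (isLaw_cond F.isLaw hA).nonneg
  obtain ⟨V₁, z₁, h1, h2⟩ := H V C z z' G₁ G₂ c hc pa (fun ω => (b ω).1) hpa hb.1
  obtain ⟨V₂, z₂, h3, h4⟩ := H' V C z z' G₁ G₂ c hc pa (fun ω => (b ω).2) hpa hb.2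
  refine ⟨V₁ × V₂, fun ω => (z₁ ω, z₂ ω), h1.join h3, ?_⟩
  have s := CH_subadd h0 (fun ω => (b ω).1) (fun ω => (b ω).2)
    (fun ω => ((X J F V z' G₁ G₂ ω, X' J F V z' G₁ G₂ ω), (pa ω, ((z₁ ω, z₂ ω), F.T ω))))
  have t1 : CH (Pool.Agent.H49.Ent.cond F.p A True) (fun ω => (b ω).1)
      (fun ω => ((X J F V z' G₁ G₂ ω, X' J F V z' G₁ G₂ ω), (pa ω, ((z₁ ω, z₂ ω), F.T ω)))) ≤
      η * J :=
    le_trans (CH_mono_cond h0 fun ω ω' _ _ hh => by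
      simp only [Prod.mk.injEq] at hh ⊢
      exact ⟨hh.1.1, hh.2.1, hh.2.2.1.1, hh.2.2.2⟩) h2
  have t2 : CH (Pool.Agent.H49.Ent.cond F.p A True) (fun ω => (b ω).2)
      (fun ω => ((X J F V z' G₁ G₂ ω, X' J F V z' G₁ G₂ ω), (pa ω, ((z₁ ω, z₂ ω), F.T ω)))) ≤
      η' * J :=
    le_trans (CH_mono_cond h0 fun ω ω' _ _ hh => by
      simp only [Prod.mk.injEq] at hh ⊢
      exact ⟨hh.1.2, hh.2.1, hh.2.2.1.2, hh.2.2.2⟩) h4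
  have e1 : (η + η') * J = η * J + η' * J := by ring
  have e2 : (fun ω => ((b ω).1, (b ω).2)) = b := rfl
  rw [e2] at s
  rw [e1]
  exact s.trans (add_le_add t1 t2)

end pairs

/-- **The comparison for codes of small accuracy.** -/
def NgP {m : ℕ} (S : PCl m) {U A' B : Type} (Qp : Qt m U) (Qa : Qt m A') (Qb : Qt m B)
    (x y κ : ℝ) : Prop :=
  ∃ κ₁ : ℝ, 0 < κ₁ ∧ ∃ e₀ : ℝ, 0 < e₀ ∧ ∀ K : ℕ, Bas S (fun J F A =>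
    ∀ (V : Type) (z : F.Ω → V) (V' : Type) (z' : F.Ω → V'),
    Mx (fun J F => ptr F J) (vg x) κ₁ F A z → Mx (fun J F => ptr F J) (vg y) κ₁ F A z' →
    ∀ a b pa, Qa.P K e₀ J F A a → Qb.P K e₀ J F A b → Qp.P K e₀ J F A pa →
    CH (Pool.Agent.H49.Ent.cond F.p A True) a (fun ω => (b ω, (pa ω, (z ω, F.W ω)))) ≤
      CH (Pool.Agent.H49.Ent.cond F.p A True) a (fun ω => (pa ω, (z' ω, F.W ω))) + κ * J)

/-- **The comparison for the labels of the family.** -/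
theorem two_core {m : ℕ} {S : PCl m} {C₀ : ℝ} (htm : TmC S C₀) {U A' B : Type} {Qp : Qt m U}
    {Qa : Qt m A'} {Qb : Qt m B} {x y κ : ℝ} (HN : NgP S Qp Qa Qb x y κ) (hp : Exs S Qp)
    (ha : Exs S Qa) (hb : Exs S Qb) {Ψ : Fm2 m} {κ₁ κ₂ : Fin m} {i₁ i₂ : ℕ} {n₁ n₂ m₁ m₂ : ℝ}
    {e e₁ k η₁ η₂ η₃ η₄ η₅ : ℝ} (he : 0 < e) (hee : e₁ ≤ e)
    (P1 : F1 S (fun J F => ptr F J) (vg x) (fun _ F => F.T) Qp Qp e η₁)
    (M1 : Ffr S x Qp Ψ Qb ((ox1 κ₁ x m₁ i₁).pr (ox2 κ₂ x m₂ i₂)) e η₂)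
    (X1 : Fto S x Qp Ψ Qa ((ox1 κ₁ x n₁ i₁).pr (ox2 κ₂ x n₂ i₂)) e η₃)
    (P2 : F1 S (fun J F => ptr F J) (vg y) (fun _ F => F.T) Qp Qp e η₄)
    (X2 : Ffr S y Qp Ψ Qa ((ox1 κ₁ x n₁ i₁).pr (ox2 κ₂ x n₂ i₂)) e η₅) :
    TwO S Ψ κ₁ κ₂ x i₁ i₂ n₁ n₂ m₁ m₂ y Qp e₁ k (κ + k + (η₁ + η₂ + η₃ + η₄ + η₅)) := by
  obtain ⟨k₁, hk₁, e₀, he₀, HN⟩ := HN
  obtain ⟨ε, hε⟩ : ∃ ε : ℝ, ε = min e₀ e := ⟨_, rfl⟩
  have hε0 : 0 < ε := by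
    rw [hε]
    exact lt_min he₀ he
  have hε1 : ε ≤ e₀ := by
    rw [hε]
    exact min_le_left _ _
  have hε2 : ε ≤ e := by
    rw [hε]
    exact min_le_right _ _
  obtain ⟨Kp, Mp, hp⟩ := hp ε hε0
  obtain ⟨Ka, Ma, ha⟩ := ha ε hε0
  obtain ⟨Kb, Mb, hb⟩ := hb ε hε0
  intro K₀
  obtain ⟨L, hL⟩ : ∃ L : ℕ, L = K₀ + Kp + Ka + Kb := ⟨_, rfl⟩
  refine Bas.mono 0 ((((HN L).and (P1 L)).and ((M1 L).and (X1 L))).and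
    (((P2 L).and (X2 L)).and ((hp.and (ha.and hb)).and (Pool.GRW.tmc_bas htm one_pos)))) ?_
  rintro J - F A ⟨⟨⟨HN, P1⟩, M1, X1⟩, ⟨P2, X2⟩, ⟨⟨pb, hpb, -⟩, ⟨a, ha, -⟩, b, hb, -⟩, hA, -⟩ V C z z'
    G₁ G₂ c hc TX x₀ hx TY y₀ hy pa hpa
  have h0 := (isLaw_cond F.isLaw hA).nonneg
  have hJ0 : (0 : ℝ) ≤ J := Nat.cast_nonneg J
  have hpb0 := Qp.mono (by omega : Kp ≤ L) hε1 hpb
  have ha0 := Qa.mono (by omega : Ka ≤ L) hε1 ha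
  have hb0 := Qb.mono (by omega : Kb ≤ L) hε1 hb
  have hpb1 := Qp.mono (by omega : Kp ≤ L) hε2 hpb
  have ha1 := Qa.mono (by omega : Ka ≤ L) hε2 ha
  have hb1 := Qb.mono (by omega : Kb ≤ L) hε2 hb
  have hpa1 := Qp.mono (by omega : K₀ ≤ L) hee hpa
  obtain ⟨Vx, zx, hzx⟩ := Pool.V1E.mx_any (fun J F => ptr F J) (vg x) le_rfl hA
  obtain ⟨Vy, zy, hzy⟩ := Pool.V1E.mx_any (fun J F => ptr F J) (vg y) le_rfl hA
  have key := HN Vx zx Vy zy (hzx.le' hk₁.le) (hzy.le' hk₁.le) a b pb ha0 hb0 hpb0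
  obtain ⟨V₁, z₁, hz₁, g1⟩ := P1 pa pb hpa1 hpb1
  obtain ⟨V₂, z₂, hz₂, g2⟩ := M1 V C z z' G₁ G₂ c hc pb b hpb1 hb1
  obtain ⟨V₃, z₃, hz₃, g3⟩ := X1 V C z z' G₁ G₂ c hc pb a hpb1 ha1
  obtain ⟨V₄, z₄, hz₄, g4⟩ := P2 pb pa hpb1 hpa1
  obtain ⟨V₅, z₅, hz₅, g5⟩ := X2 V C z z' G₁ G₂ c hc pa a hpa1 ha1
  obtain ⟨X, hX⟩ : ∃ X : F.Ω → ℤ × ℤ, X = fun ω => (oj F κ₁ z' G₁ ⌊x * J⌋₊ n₁ i₁ ω,
    oj F κ₂ z' G₂ ⌊x * J⌋₊ n₂ i₂ ω) := ⟨_, rfl⟩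
  obtain ⟨M, hM⟩ : ∃ M : F.Ω → ℤ × ℤ, M = fun ω => (oj F κ₁ z' G₁ ⌊x * J⌋₊ m₁ i₁ ω,
    oj F κ₂ z' G₂ ⌊x * J⌋₊ m₂ i₂ ω) := ⟨_, rfl⟩
  have hXe : ((ox1 κ₁ x n₁ i₁).pr (ox2 κ₂ x n₂ i₂)) J F V z' G₁ G₂ = X := by
    rw [hX]
    rfl
  have hMe' : ((ox1 κ₁ x m₁ i₁).pr (ox2 κ₂ x m₂ i₂)) J F V z' G₁ G₂ = M := by
    rw [hM]
    rfl
  rw [hXe] at g3 g5
  rw [hMe'] at g2
  rw [← hX]
  have hMe : (fun ω => ((oj F κ₁ z' G₁ ⌊x * J⌋₊ m₁ i₁ ω, oj F κ₂ z' G₂ ⌊x * J⌋₊ m₂ i₂ ω),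
      (pa ω, (x₀ ω, F.W ω)))) = fun ω => (M ω, (pa ω, (x₀ ω, F.W ω))) := by
    rw [hM]
  rw [hMe]
  obtain ⟨q, hq⟩ : ∃ q : F.Ω → ℝ, q = Pool.Agent.H49.Ent.cond F.p A True := ⟨_, rfl⟩
  have cx := hx.2 _ _ (hzx.1.join (hz₁.join (hz₂.join hz₃)))
  have cy := hzy.2 _ _ (hy.1.join (hz₄.join hz₅))
  rw [← hq] at h0 key g1 g2 g3 g4 g5 cx cy ⊢
  have wT : ∀ ω ω' : F.Ω, F.W ω = F.W ω' → F.T ω = F.T ω' := fun ω ω' h =>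
    (Prod.ext_iff.mp h).1
  -- the left side
  have l1 := lhs_law h0 X M pa x₀ F.W a b pb (fun ω => (zx ω, (z₁ ω, (z₂ ω, z₃ ω)))) cx
    (η₁ := η₁ * J) (η₂ := η₂ * J) (η₃ := η₃ * J)
    (le_trans (CH_mono_cond h0 fun ω ω' _ _ hh => by
      simp only [Prod.mk.injEq] at hh ⊢
      exact ⟨hh.1, hh.2.1.2.1, wT _ _ hh.2.2⟩) g1)
    (le_trans (CH_mono_cond h0 fun ω ω' _ _ hh => by
      simp only [Prod.mk.injEq] at hh ⊢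
      exact ⟨hh.1, hh.2.1, hh.2.2.1.2.2.1, wT _ _ hh.2.2.2⟩) g2)
    (le_trans (CH_mono_cond h0 fun ω ω' _ _ hh => by
      simp only [Prod.mk.injEq] at hh ⊢
      exact ⟨hh.1, hh.2.1, hh.2.2.1.2.2.2, wT _ _ hh.2.2.2⟩) g3)
  have l2 : CH q a (fun ω => (b ω, (pb ω, ((zx ω, (z₁ ω, (z₂ ω, z₃ ω))), F.W ω)))) ≤
      CH q a (fun ω => (b ω, (pb ω, (zx ω, F.W ω)))) := CH_mono_cond h0 fun ω ω' _ _ hh => by
    simp only [Prod.mk.injEq] at hh ⊢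
    exact ⟨hh.1, hh.2.1, hh.2.2.1.1, hh.2.2.2⟩
  -- the right side
  have r1 := rhs_law h0 X pa y₀ F.W a pb zy (fun ω => (y₀ ω, (z₄ ω, z₅ ω)))
    (fun ω ω' _ _ hh => (Prod.ext_iff.mp hh).1) cy
    (η₁ := η₄ * J) (η₂ := η₅ * J)
    (le_trans (CH_mono_cond h0 fun ω ω' _ _ hh => by
      simp only [Prod.mk.injEq] at hh ⊢
      exact ⟨hh.1, hh.2.1.2.1, wT _ _ hh.2.2⟩) g4)
    (le_trans (CH_mono_cond h0 fun ω ω' _ _ hh => by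
      simp only [Prod.mk.injEq] at hh ⊢
      exact ⟨hh.1, hh.2.1, hh.2.2.1.2.2, wT _ _ hh.2.2.2⟩) g5)
  have e1 : (κ + k + (η₁ + η₂ + η₃ + η₄ + η₅)) * J =
      κ * J + k * J + (η₁ * J + η₂ * J + η₃ * J + η₄ * J + η₅ * J) := by ring
  rw [e1]
  rw [zero_mul] at r1
  linarith only [key, l1, l2, r1]

end Pool.TWO28
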