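import Pool.Agent.H99.D2.Fze
import Pool.Agent.H28.TWO.Tfm

/-!
# The two record comparison, the second label over a fixed label

`two_da`, `two_db`: the comparison `TwO` for a family of pairs: the first label over the chain, the
second one a fixed label `d J F` plus a closed polynomial over the chain.
-/

set_option autoImplicit false

namespace Pool.TWO28

open Finset Real MvPolynomial
open Pool.Agent.H49.Ent Pool.Agent.H32.Dense Pool.STK Pool.KA Pool.KSAT Pool.K2S Pool.PB Pool.GEN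
open Pool.S6C Pool.RCD Pool.LA91 Pool.OWN68 Pool.AJW Pool.PN18 Pool.LPK12
open Pool.GRD (LbP)
open Pool.LP30 (paQ)
open Pool.ALT (DpI)

section

variable {m : ℕ} {S : PCl m} {C₀ : ℝ} {U B : Type} {Qp : Qt m U} {Qc : Qt m B} {Ψ : Fm2 m} {a : ℝ}
  {d : ∀ (J : ℕ) (F : Fam m J), LbD F}

/-- **From a code to the jet over the first label.** -/
theorem fto_g (htm : TmC S C₀) {c : ℕ → Fin m} {r K : ℕ} {I₂ : Finset (Fin m)} {κ₂ : Fin m}
    {v lam e E₂ r₂ p₂ : ℝ} {E rd p n : ℕ → ℝ} (hΨ : PsL Ψ c r K I₂ κ₂ v lam e E₂ r₂ p₂ E rd p n)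
    {i : ℕ} {n₁ e' η : ℝ} (hee : e ≤ e')
    (h : F1 S (fun J F => ptr F J) (vg a) (fun _ F => F.T) (Qp.prod Qc)
      (qJet m ((range r).image c) (c r) i v (p r) n₁) e' η) :
    Fto S a Qp Ψ Qc (ox1 (c r) v n₁ i) e' η := by
  obtain ⟨M, J₁, hP⟩ := psl_P (i := i) (n₁ := n₁) hΨ hee
  intro K₀
  refine Bas.mono J₁ ((h (K₀ + M)).and (Pool.GRW.tmc_bas htm one_pos)) ?_
  rintro J hJ F A ⟨H, hA, -⟩ V C z z' G₁ G₂ cc hc pa b hpa hb
  have h0 := (isLaw_cond F.isLaw hA).nonneg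
  have hx := hP J hJ F A V C z z' G₁ G₂ cc hc (K₀ + M) (by omega)
  obtain ⟨V₁, z₁, hz₁, g1⟩ := H (fun ω => (pa ω, b ω)) _ ⟨Qp.mono (by omega) le_rfl hpa,
    Qc.mono (by omega) le_rfl hb⟩ hx
  refine ⟨V₁, z₁, hz₁, le_trans (CH_mono_cond h0 fun ω ω' _ _ hh => ?_) g1⟩
  simp only [Prod.mk.injEq] at hh ⊢
  exact ⟨⟨hh.2.1, hh.1⟩, hh.2.2⟩

/-- **From the jet over the first label to a code.** -/
theorem ffr_g (htm : TmC S C₀) {c : ℕ → Fin m} {r K : ℕ} {I₂ : Finset (Fin m)} {κ₂ : Fin m}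
    {v lam e E₂ r₂ p₂ : ℝ} {E rd p n : ℕ → ℝ} (hΨ : PsL Ψ c r K I₂ κ₂ v lam e E₂ r₂ p₂ E rd p n)
    {i : ℕ} {n₁ e' η : ℝ} (hee : e ≤ e')
    (h : F1 S (fun J F => ptr F J) (vg a) (fun _ F => F.T)
      (Qp.prod (qJet m ((range r).image c) (c r) i v (p r) n₁)) Qc e' η) :
    Ffr S a Qp Ψ Qc (ox1 (c r) v n₁ i) e' η := by
  obtain ⟨M, J₁, hP⟩ := psl_P (i := i) (n₁ := n₁) hΨ hee
  intro K₀
  refine Bas.mono J₁ ((h (K₀ + M)).and (Pool.GRW.tmc_bas htm one_pos)) ?_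
  rintro J hJ F A ⟨H, hA, -⟩ V C z z' G₁ G₂ cc hc pa b hpa hb
  have h0 := (isLaw_cond F.isLaw hA).nonneg
  have hx := hP J hJ F A V C z z' G₁ G₂ cc hc (K₀ + M) (by omega)
  obtain ⟨V₁, z₁, hz₁, g1⟩ := H (fun ω => (pa ω, (ox1 (c r) v n₁ i) J F V z' G₁ G₂ ω)) b
    ⟨Qp.mono (by omega) le_rfl hpa, hx⟩ (Qc.mono (by omega) le_rfl hb)
  refine ⟨V₁, z₁, hz₁, le_trans (CH_mono_cond h0 fun ω ω' _ _ hh => ?_) g1⟩
  simp only [Prod.mk.injEq] at hh ⊢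
  exact ⟨⟨hh.2.1, hh.1⟩, hh.2.2⟩

/-- **From the jet of the label** `d J F` **to the jet over the second label.** -/
theorem fto_d (htm : TmC S C₀) {I₁ I₂ : Finset (Fin m)} {k κ₂ : Fin m} (hk : k ∈ I₁)
    {K K₁ j : ℕ} {vn v E₂ r₂ p₂ En Rn Pn P N e e' η₃ δ : ℝ} (he : 0 < e)
    (hee : 2 * e ≤ e') (hP0 : e' ≤ P) (hP : P ≤ Pn) (hP' : P ≤ p₂) (hδ : 0 < δ)
    (hF : F1 S (fun J F => ptr F J) (vg a) (fun _ F => F.T) Qp (qJet m I₁ k j v P N) e' η₃)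
    (hlb : ∀ (J : ℕ) (F : Fam m J) (A : F.Ω → Prop) (V C : Type) (z : PtT F → V) (z' : LnT F → V)
      (G₁ G₂ : V → MvPolynomial (Option (Fin m)) ℝ) (cc : LnT F → C),
      Ψ J F A V C z z' G₁ G₂ cc →
      LbOK F I₂ κ₂ K ⌊E₂ * J⌋₊ J ⌊v * J⌋₊ ⌊r₂ * J⌋₊ ⌊(p₂ - e) * J⌋₊ A z z' G₂)
    (hD : DcpD Ψ d I₁ I₂ κ₂ K₁ vn v En Rn Pn e) :
    Fto S a Qp Ψ (qD m d κ₂ j vn N) (ox2 κ₂ v N j) e (η₃ + δ) := by
  intro K₀
  refine Bas.mono 0 ((dif_key (κ₂ := κ₂) (I₂ := I₂) (K := K) (K' := K₁)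
    (K₁ := K₁) (v := v) (v' := vn) (E := E₂) (E' := En) (R := r₂) (R' := Rn) htm hk he hee hP0 hP'
    hP hδ hF K₀).and (Pool.GRW.tmc_bas htm one_pos)) ?_
  rintro J - F A ⟨HD, hA, -⟩ V C z z' G₁ G₂ cc hΨ pa b hpa hb
  obtain ⟨h1, H, h2, h3, h4⟩ := hD J F A V C z z' G₁ G₂ cc hΨ
  have hl := hlb J F A V C z z' G₁ G₂ cc hΨ
  have h0 := (isLaw_cond F.isLaw hA).nonneg
  obtain ⟨V₂, z₂, hz₂, g2⟩ := HD V (d J F).V V z z' G₂ (d J F).z (d J F).z' (d J F).G z z' H hl h1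
    hl.cls h2 h3 h4 pa hpa
  refine ⟨V₂, z₂, hz₂, le_trans (CH_mono_cond h0 fun ω ω' hω hω' hh => ?_) g2⟩
  simp only [Prod.mk.injEq] at hh ⊢
  refine ⟨?_, hh.2⟩
  have e1 := hh.1
  rw [hb.2 ω (of_cond_pos hω), hb.2 ω' (of_cond_pos hω')] at e1
  exact e1

/-- **From the jet over the second label to the jet of the label** `d J F`. -/
theorem ffr_d (htm : TmC S C₀) {I₁ I₂ : Finset (Fin m)} {k κ₂ : Fin m} (hk : k ∈ I₁)
    {K K₁ j : ℕ} {vn v E₂ r₂ p₂ En Rn Pn P N e e' η₃ δ : ℝ} (he : 0 < e)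
    (hee : 2 * e ≤ e') (hP0 : e' ≤ P) (hP : P ≤ Pn) (hP' : P ≤ p₂) (hδ : 0 < δ)
    (hF : F1 S (fun J F => ptr F J) (vg a) (fun _ F => F.T) Qp (qJet m I₁ k j v P N) e' η₃)
    (hlb : ∀ (J : ℕ) (F : Fam m J) (A : F.Ω → Prop) (V C : Type) (z : PtT F → V) (z' : LnT F → V)
      (G₁ G₂ : V → MvPolynomial (Option (Fin m)) ℝ) (cc : LnT F → C),
      Ψ J F A V C z z' G₁ G₂ cc →
      LbOK F I₂ κ₂ K ⌊E₂ * J⌋₊ J ⌊v * J⌋₊ ⌊r₂ * J⌋₊ ⌊(p₂ - e) * J⌋₊ A z z' G₂)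
    (hD : DcpD Ψ d I₁ I₂ κ₂ K₁ vn v En Rn Pn e) :
    Ffr S a Qp Ψ (qD m d κ₂ j vn N) (ox2 κ₂ v N j) e (η₃ + δ) := by
  intro K₀
  refine Bas.mono 0 ((dif_key (κ₂ := κ₂) (I₂ := I₂) (K := K₁) (K' := K)
    (K₁ := K₁) (v := vn) (v' := v) (E := En) (E' := E₂) (R := Rn) (R' := r₂) htm hk he hee hP0 hP
    hP' hδ hF K₀).and (Pool.GRW.tmc_bas htm one_pos)) ?_
  rintro J - F A ⟨HD, hA, -⟩ V C z z' G₁ G₂ cc hΨ pa b hpa hb
  obtain ⟨h1, H, h2, h3, h4⟩ := hD J F A V C z z' G₁ G₂ cc hΨ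
  have hl := hlb J F A V C z z' G₁ G₂ cc hΨ
  have h0 := (isLaw_cond F.isLaw hA).nonneg
  obtain ⟨V₂, z₂, hz₂, g2⟩ := HD (d J F).V V V (d J F).z (d J F).z' (d J F).G z z' G₂ z z'
    (fun b => - H b) h1 hl hl.cls
    (fun b => by rw [totalDegree_neg]; exact h2 b)
    (fun b x x' h5 h6 => by rw [map_neg, map_neg, h3 b x x' h5 h6])
    (fun ω hω => by
      rw [h4 ω hω]
      ring) pa hpa
  refine ⟨V₂, z₂, hz₂, le_trans ?_ g2⟩
  refine CH_mono_left h0 fun ω ω' hω hω' hh => ?_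
  have e1 := (Prod.ext_iff.mp hh).1
  rw [hb.2 ω (of_cond_pos hω), hb.2 ω' (of_cond_pos hω')]
  exact e1

end

variable {m : ℕ} {S : PCl m} {C₀ : ℝ} {c : ℕ → Fin m} {r : ℕ} {sn : ℕ → ℝ → ℝ} {G : Set ℝ}
  {v w X φ lam kf e₁ : ℝ} {v₀ : ℕ → ℝ} {K : ℕ} {U₀ : Type} {Q : Qt m U₀}

/-- **The jets of a coordinate over the chain**, labels of two windows up to `v`. -/
theorem _root_.Pool.AJW.JfN.usameW (H : JfN r sn G v w X φ lam kf v₀ K) (htm : TmC S C₀)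
    (hch : ChG S c (r + 1) sn G)
    (hA : JetA S (fun J F => ptr F J) (vg v) (fun _ F => F.T) Q c 0 r v (fun i => sn i v)
      (nX r sn v X) e₁) {k : Fin m} {j : ℕ} {w₁ w₂ p₁ p₂ N : ℝ} (hw₁ : w₁ ≤ v) (hw₂ : w₂ ≤ v)
    (h3 : N + j * v + 3 * φ ≤ min p₁ p₂ + X) {e h : ℝ} (he0 : 0 < e)
    (he1 : e ≤ e₁) (he : e ≤ φ / 8) (hh : 0 < h) :
    F1 S (fun J F => ptr F J) (vg v) (fun _ F => F.T)
      (Q.prod (qJet m ((range r).image c) k j w₁ p₁ N))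
      (qJet m ((range r).image c) k j w₂ p₂ N) e h := by
  obtain ⟨uv, rv, hrv, hcv⟩ := hch.ch v H.vG
  have hvw := H.vw
  have hφ := H.φ0
  have hlX := H.lamX
  have hX0 := H.X0
  obtain ⟨l1, l2, l3, l4⟩ := H.lvs
  have hmin : min lam (v + lam - v) = lam := by
    have e1 : v + lam - v = lam := by ring
    rw [e1, min_self]
  have hV := F1.qjets' (v := v) (p := fun i => sn i v) (n := nX r sn v X) (r₀ := 0) (r := r)
    (c := c) htm (j := j) (half_pos hh) (fun η' hη' i x y j' _ =>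
      (hA η' hη' i x y j').mono he1 le_rfl)
  have a3 : F1 S (fun J F => ptr F J) (vg v) (fun _ F => F.T)
      ((qJets m c 0 r j (fun _ _ => v) (fun l _ => sn l v)
        (fun l j' => nX r sn v X l - (j' : ℕ) * v)).prod
        (qJet m ((range r).image c) k j w₁ p₁ N))
      (qJet m ((range r).image c) k j w₂ p₂ N) e (h / 2) := by
    refine (jetN_F1 htm (hcv.take (Nat.zero_le _) (Nat.le_succ r)) (k := k)
      (lv := fun l => aX r X l - 2 * φ) (p₀ := v + lam) (lam := lam)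
      (σ₀ := φ) (wv := fun _ _ => v) (pv := fun l _ => sn l v)
      (Nv := fun l j' => nX r sn v X l - (j' : ℕ) * v)
      (fun _ _ _ _ _ => le_rfl) hw₁ hw₂ (by linarith only [hlX, hX0, hvw]) H.l1.le
      (by linarith only [hlX, hX0, hvw]) hφ (fun l _ hl => l1 l hl) ?_ ?_ ?_
      le_rfl ?_ ?_ ptr_id (kn_T c _ _) (half_pos hh)).mono he le_rfl
    · intro l _ hl j' _
      show sn l v + (aX r X l - 2 * φ) + φ ≤ nX r sn v X l - (j' : ℕ) * v + j' * v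
      unfold nX
      linarith only [hφ]
    · intro l _ hl j' _
      rw [hmin]
      show sn l v + (aX r X l - 2 * φ) + φ ≤ min (sn l v) (sn l v) + lam
      rw [min_self]
      linarith only [l2 l hl]
    · intro l _ hl j' _ l' _ hl'
      show sn l v + (aX r X l - 2 * φ) + φ ≤ min (sn l v) (sn l v) + (aX r X l' - 2 * φ)
      rw [min_self]
      linarith only [l3 l hl l' hl']
    · rw [hmin]
      linarith only [h3, hlX, hvw, hφ]
    · intro l _ hl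
      linarith only [h3, l4 l hl]
  have key : F1 S (fun J F => ptr F J) (vg v) (fun _ F => F.T)
      (Q.prod (qJet m ((range r).image c) k j w₁ p₁ N))
      (qJet m ((range r).image c) k j w₂ p₂ N) e (h / 2 + h / 2) := by
    refine F1.cut htm (H.exv hch j) he0 (F1.pull htm (Q₁ := Q) (fun u => u.1)
      (fun _ _ _ _ _ _ hu => hu.1) hV)
      (F1.pull htm (Q₁ := (qJets m c 0 r j (fun _ _ => v) (fun l _ => sn l v)
        (fun l j' => nX r sn v X l - (j' : ℕ) * v)).prod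
        (qJet m ((range r).image c) k j w₁ p₁ N))
      (fun u => (u.2, u.1.2)) (fun _ _ _ _ _ _ hu => ⟨hu.2, hu.1.2⟩) a3)
  exact key.mono le_rfl (by linarith only)

end Pool.TWO28

namespace Pool.PN18

open Finset Real MvPolynomial
open Pool.Agent.H49.Ent Pool.Agent.H32.Dense Pool.STK Pool.KA Pool.KSAT Pool.K2S Pool.PB Pool.GEN
open Pool.S6C Pool.RCD Pool.LA91 Pool.OWN68 Pool.AJW Pool.AJX Pool.CHT Pool.LPK12 Pool.TWO28
open Pool.GRD (LbP)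
open Pool.LP30 (paQ)
open Pool.ALT (Fml DpI)

variable {m : ℕ} {S : PCl m} {C₀ : ℝ} {c : ℕ → Fin m} {r : ℕ} {sn : ℕ → ℝ → ℝ} {G : Set ℝ}
  {v w X φ lam kf : ℝ} {v₀ : ℕ → ℝ} {K : ℕ} {nH nV : ℕ → ℝ} {Ψ : Fm2 m} {Kd K₁ : ℕ} {κ₂ : Fin m}
  {lamΨ e E₂ r₂ p₂ En Rn Pn : ℝ} {E rd p n : ℕ → ℝ} {d : ∀ (J : ℕ) (F : Fam m J), LbD F}
  {b₀ vn y κ ε : ℝ} {i j : ℕ} {n₁ n₂ m₁ m₂ : ℝ}

/-- **The changes of the labels**, both directions. -/
theorem chg_d (htm : TmC S C₀) (hr : 1 ≤ r) (hch : ChG S c (r + 1) sn G)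
    (H : JfN r sn G v w X φ lam kf v₀ K) {U : Type} {Qp : Qt m U}
    (hA : JetA S (fun J F => ptr F J) (vg v) (fun _ F => F.T) Qp c 0 r v (fun i => sn i v)
      (nX r sn v X) (φ / 8))
    (hΨ : PsL Ψ c r Kd ((range (r + 1)).image c) κ₂ v lamΨ e E₂ r₂ p₂ E rd p n)
    (hD : DcpD Ψ d ((range r).image c) ((range (r + 1)).image c) κ₂ K₁ vn v En Rn Pn e)
    (he : 0 < e) (heφ : e ≤ φ / 16) (hP : φ / 8 ≤ min Pn p₂) (hbv : b₀ ≤ v) {h N₁ N₂ : ℝ}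
    (hh : 0 < h) (u1 : N₁ + i * v + 3 * φ ≤ min (p r) (sn r b₀) + X)
    (s1 : N₂ + j * v + 3 * φ ≤ min Pn p₂ + X) :
    Fto S v Qp Ψ ((qJet m ((range r).image c) (c r) i b₀ (sn r b₀) N₁).prod (qD m d κ₂ j vn N₂))
      ((ox1 (c r) v N₁ i).pr (ox2 κ₂ v N₂ j)) e (3 * h) ∧
    ∀ a : ℝ, v ≤ a → a ≤ 1 → Ffr S a Qp Ψ
      ((qJet m ((range r).image c) (c r) i b₀ (sn r b₀) N₁).prod (qD m d κ₂ j vn N₂))
      ((ox1 (c r) v N₁ i).pr (ox2 κ₂ v N₂ j)) e (3 * h) := by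
  have hφ := H.φ0
  have hk : c 0 ∈ (range r).image c := Finset.mem_image_of_mem c (Finset.mem_range.2 (by omega))
  have g1 := H.selfvv htm hch hA hk s1 (e := φ / 8) (by positivity) le_rfl le_rfl hh
  refine ⟨?_, fun a hva ha => ?_⟩
  · have a1 := fto_g htm hΨ le_rfl (H.usameW htm hch hA (k := c r) (j := i) (w₁ := b₀) (w₂ := v)
      (p₁ := sn r b₀) (p₂ := p r) hbv le_rfl (by rwa [min_comm]) he (by linarith) (by linarith) hh)
    have a2 := fto_d htm hk he (e' := φ / 8) (by linarith) hP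
      (min_le_left _ _) (min_le_right _ _) hh g1
      (fun J F A V C z z' G₁ G₂ cc h1 => (hΨ.1 J F A V C z z' G₁ G₂ cc h1).2) hD
    exact (a1.pair htm a2).mono le_rfl (by linarith)
  · have a1 := ffr_g htm hΨ le_rfl (F1.up hva ha (H.usameW htm hch hA (k := c r) (j := i) (w₁ := v)
      (w₂ := b₀) (p₁ := p r) (p₂ := sn r b₀) le_rfl hbv u1 he (by linarith) (by linarith) hh))
    have a2 := ffr_d htm hk he (e' := φ / 8) (by linarith) hP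
      (min_le_left _ _) (min_le_right _ _) hh (F1.up hva ha g1)
      (fun J F A V C z z' G₁ G₂ cc h1 => (hΨ.1 J F A V C z z' G₁ G₂ cc h1).2) hD
    exact (a1.pair htm a2).mono le_rfl (by linarith)

/-- **The comparison for the family, general second code.** -/
theorem two_dg (htm : TmC S C₀) (hr : 1 ≤ r) (hch : ChG S c (r + 1) sn G)
    (H : JfN r sn G v w X φ lam kf v₀ K) (hpa : PaN r sn v X φ nH nV)
    (hΨ : PsL Ψ c r Kd ((range (r + 1)).image c) κ₂ v lamΨ e E₂ r₂ p₂ E rd p n)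
    (hex : Bas S (fun J F A => ∃ (V C : Type) (z : PtT F → V) (z' : LnT F → V)
      (G₁ G₂ : V → MvPolynomial (Option (Fin m)) ℝ) (cc : LnT F → C), Ψ J F A V C z z' G₁ G₂ cc))
    (hD : DcpD Ψ d ((range r).image c) ((range (r + 1)).image c) κ₂ K₁ vn v En Rn Pn e)
    (he : 0 < e) (heφ : e ≤ φ / 16) (hP : φ / 8 ≤ min Pn p₂) (hb₀ : b₀ ∈ G) (hbv : b₀ ≤ v)
    (hvy : v ≤ y) (hy : y ≤ 1) (hε : 0 < ε) {B : Type} {Qb : Qt m B}
    (HN : NgP S (paQ m c r v (fun l => sn l v) nH nV)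
      ((qJet m ((range r).image c) (c r) i b₀ (sn r b₀) n₁).prod (qD m d κ₂ j vn n₂))
      Qb v y κ) (hb : Exs S Qb)
    (M1 : Ffr S v (paQ m c r v (fun l => sn l v) nH nV) Ψ Qb
      ((ox1 (c r) v m₁ i).pr (ox2 κ₂ v m₂ j)) e (3 * (ε / 11)))
    (u1 : n₁ + i * v + 3 * φ ≤ min (p r) (sn r b₀) + X)
    (s1 : n₂ + j * v + 3 * φ ≤ min Pn p₂ + X) (k : ℝ) :
    TwO S Ψ (c r) κ₂ v i j n₁ n₂ m₁ m₂ y (paQ m c r v (fun l => sn l v) nH nV) e k
      (κ + k + ε) := by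
  obtain ⟨uv, rv, hrv, hcv⟩ := hch.ch v H.vG
  obtain ⟨ub, rb, hrb, hcb⟩ := hch.ch b₀ hb₀
  have hφ := H.φ0
  have hA := H.nearv htm hch (pf := fun l => sn l v)
    (Nf := fun _ j => if j = 0 then nH _ else nV _) (fun l _ => by linarith) fun l hl j hj => by
      rcases Nat.eq_zero_or_pos j with rfl | hj0
      · have h1 := hpa.lh l hl
        rw [if_pos rfl, Nat.cast_zero, zero_mul]
        linarith
      · obtain rfl : j = 1 := by omega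
        have h1 := hpa.lv l hl
        rw [if_neg one_ne_zero, Nat.cast_one, one_mul]
        linarith
  have hh : 0 < ε / 11 := by positivity
  obtain ⟨x1, x2⟩ := chg_d (i := i) (j := j) htm hr hch H hA hΨ hD he heφ hP hbv hh u1 s1
  have p1 := H.paF htm hch (fun l hl => by linarith [hpa.lh l hl])
    (fun l hl => by linarith [hpa.lv l hl]) hpa.uh hpa.uv hh
  have hxp : Exs S (paQ m c r v (fun l => sn l v) nH nV) :=
    exs_qjets fun l x y' j' _ => exs_jet (hrv l (by omega)) (hcv.att l x (by omega))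
  have hxa : Exs S ((qJet m ((range r).image c) (c r) i b₀ (sn r b₀) n₁).prod
      (qD m d κ₂ j vn n₂)) :=
    (exs_jet (hrb r (Nat.lt_succ_self r)) (hcb.att r (Nat.zero_le r) (Nat.lt_succ_self r))).prod
      (exs_qD (hD.lbf hex) j n₂)
  have key := two_core htm (k := k) HN hxp hxa hb he le_rfl
    (p1.mono (by linarith) le_rfl) M1 x1
    ((F1.up hvy hy p1).mono (by linarith) le_rfl) (x2 y hvy hy)
  have e1 : κ + k + (ε / 11 + 3 * (ε / 11) + 3 * (ε / 11) + ε / 11 + 3 * (ε / 11)) =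
      κ + k + ε := by ring
  rw [e1] at key
  exact key

/-- **TASK P5a.** The comparison for the family, the second label over the base label `d J F`, first
kind. -/
theorem two_da (htm : TmC S C₀) (hr : 1 ≤ r) (hch : ChG S c (r + 1) sn G)
    (H : JfN r sn G v w X φ lam kf v₀ K) (hpa : PaN r sn v X φ nH nV)
    (hΨ : PsL Ψ c r Kd ((range (r + 1)).image c) κ₂ v lamΨ e E₂ r₂ p₂ E rd p n)
    (hex : Bas S (fun J F A => ∃ (V C : Type) (z : PtT F → V) (z' : LnT F → V)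
      (G₁ G₂ : V → MvPolynomial (Option (Fin m)) ℝ) (cc : LnT F → C), Ψ J F A V C z z' G₁ G₂ cc))
    (hD : DcpD Ψ d ((range r).image c) ((range (r + 1)).image c) κ₂ K₁ vn v En Rn Pn e)
    (he : 0 < e) (heφ : e ≤ φ / 16) (hP : φ / 8 ≤ min Pn p₂) (hb₀ : b₀ ∈ G) (hbv : b₀ ≤ v)
    (hvy : v ≤ y) (hy : y ≤ 1) (hε : 0 < ε)
    (HN : Nla S (paQ m c r v (fun l => sn l v) nH nV)
      ((qJet m ((range r).image c) (c r) i b₀ (sn r b₀) n₁).prod (qD m d κ₂ j vn n₂))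
      ((qJet m ((range r).image c) (c r) i b₀ (sn r b₀) m₁).prod (qD m d κ₂ j vn m₂)) v y κ)
    (u1 : n₁ + i * v + 3 * φ ≤ min (p r) (sn r b₀) + X)
    (u2 : m₁ + i * v + 3 * φ ≤ min (p r) (sn r b₀) + X)
    (s1 : n₂ + j * v + 3 * φ ≤ min Pn p₂ + X) (s2 : m₂ + j * v + 3 * φ ≤ min Pn p₂ + X) (k : ℝ) :
    TwO S Ψ (c r) κ₂ v i j n₁ n₂ m₁ m₂ y (paQ m c r v (fun l => sn l v) nH nV) e k
      (κ + k + ε) := by
  obtain ⟨uv, rv, hrv, hcv⟩ := hch.ch v H.vG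
  obtain ⟨ub, rb, hrb, hcb⟩ := hch.ch b₀ hb₀
  have hφ := H.φ0
  have hA := H.nearv htm hch (pf := fun l => sn l v)
    (Nf := fun _ j => if j = 0 then nH _ else nV _) (fun l _ => by linarith) fun l hl j hj => by
      rcases Nat.eq_zero_or_pos j with rfl | hj0
      · have h1 := hpa.lh l hl
        rw [if_pos rfl, Nat.cast_zero, zero_mul]
        linarith
      · obtain rfl : j = 1 := by omega
        have h1 := hpa.lv l hl
        rw [if_neg one_ne_zero, Nat.cast_one, one_mul]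
        linarith
  have hh : 0 < ε / 11 := by positivity
  obtain ⟨-, x2⟩ := chg_d (i := i) (j := j) htm hr hch H hA hΨ hD he heφ hP hbv hh u2 s2
  exact two_dg htm hr hch H hpa hΨ hex hD he heφ hP hb₀ hbv hvy hy hε HN
    ((exs_jet (hrb r (Nat.lt_succ_self r)) (hcb.att r (Nat.zero_le r) (Nat.lt_succ_self r))).prod
      (exs_qD (hD.lbf hex) j m₂)) (x2 v le_rfl hcv.u0.le) u1 s1 k

/-- **TASK P5b.** The same, second kind. -/
theorem two_db (htm : TmC S C₀) (hr : 1 ≤ r) (hch : ChG S c (r + 1) sn G)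
    (H : JfN r sn G v w X φ lam kf v₀ K) (hpa : PaN r sn v X φ nH nV)
    (hΨ : PsL Ψ c r Kd ((range (r + 1)).image c) κ₂ v lamΨ e E₂ r₂ p₂ E rd p n)
    (hex : Bas S (fun J F A => ∃ (V C : Type) (z : PtT F → V) (z' : LnT F → V)
      (G₁ G₂ : V → MvPolynomial (Option (Fin m)) ℝ) (cc : LnT F → C), Ψ J F A V C z z' G₁ G₂ cc))
    (hD : DcpD Ψ d ((range r).image c) ((range (r + 1)).image c) κ₂ K₁ vn v En Rn Pn e)
    (he : 0 < e) (heφ : e ≤ φ / 16) (hP : φ / 8 ≤ min Pn p₂) (hb₀ : b₀ ∈ G) (hbv : b₀ ≤ v)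
    (hvy : v ≤ y) (hy : y ≤ 1) (hε : 0 < ε)
    (HN : Nlb S (paQ m c r v (fun l => sn l v) nH nV)
      ((qJet m ((range r).image c) (c r) i b₀ (sn r b₀) n₁).prod (qD m d κ₂ j vn n₂)) v y κ)
    (u1 : n₁ + i * v + 3 * φ ≤ min (p r) (sn r b₀) + X)
    (s1 : n₂ + j * v + 3 * φ ≤ min Pn p₂ + X) (k : ℝ) :
    TwO S Ψ (c r) κ₂ v i j n₁ n₂ m₁ m₂ y (paQ m c r v (fun l => sn l v) nH nV) e k
      (κ + k + ε) := by
  have HN' : NgP S (paQ m c r v (fun l => sn l v) nH nV)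
      ((qJet m ((range r).image c) (c r) i b₀ (sn r b₀) n₁).prod (qD m d κ₂ j vn n₂)) (tQ m)
      v y κ := by
    obtain ⟨k₁, hk₁, e₁, he₁, HN⟩ := HN
    refine ⟨k₁, hk₁, e₁, he₁, fun K => Bas.mono 0 ((HN K).and (Pool.GRW.tmc_bas htm one_pos)) ?_⟩
    rintro J - F A ⟨HN, hA, -⟩ V z V' z' hz hz' a b pa ha _ hpa
    have h0 := (isLaw_cond F.isLaw hA).nonneg
    refine le_trans (CH_mono_cond h0 fun ω ω' _ _ hh => ?_) (HN V z V' z' hz hz' a pa ha hpa)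
    exact (Prod.ext_iff.mp hh).2
  exact two_dg htm hr hch H hpa hΨ hex hD he heφ hP hb₀ hbv hvy hy hε HN' exs_tQ
    (ffr_tQ htm (by positivity)) u1 s1 k

end Pool.PN18
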