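import Pool.Agent.H28.TWO.Law

/-!
# Change of the labels at one window, the near path given

`JfN.nearv`: the near jets of the chain over the labels of `v`, at the record of `v`. `JfN.paF`: the
near path over other labels of `v`. `JfN.selfvv`: the jets of a closed polynomial over the chain.
`JfN.usame`: the jets of a coordinate over the chain, other labels of `v`. `JfN.nsame`: the jets of a
coordinate over the chain and one more place, other labels of the early window `vn`.
-/

set_option autoImplicit false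

namespace Pool.TWO28

open Finset Real MvPolynomial
open Pool.Agent.H49.Ent Pool.Agent.H32.Dense Pool.STK Pool.KA Pool.KSAT Pool.K2S Pool.PB Pool.GEN
open Pool.S6C Pool.RCD Pool.LA91 Pool.OWN68 Pool.AJW Pool.PN18 Pool.LPK12
open Pool.LP30 (paQ)

variable {m : ℕ} {S : PCl m} {C₀ : ℝ} {c : ℕ → Fin m} {r : ℕ} {sn : ℕ → ℝ → ℝ} {G : Set ℝ}
  {v w vn X φ lam kf e₁ : ℝ} {v₀ vn₀ pf : ℕ → ℝ} {Nf : ℕ → ℕ → ℝ} {K : ℕ} {U₀ : Type}
  {Q : Qt m U₀}

/-- **The far digits over the labels of the same window.** -/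
theorem far_self (hch : ChG S c (r + 1) sn G) (H : JfN r sn G v w X φ lam kf v₀ K)
    (hpf : ∀ l < r, sn l v - φ ≤ pf l)
    (hNf : ∀ l < r, ∀ j ≤ 1, nX r sn v X l - (j : ℕ) * v ≤ Nf l j) :
    FarV S c 0 r v₀ v v lam φ (fun i => sn i (v₀ i)) (fun i => sn i v) (fun i => sn i v) pf
      (nX r sn v X) (fun l => aX r X l - 2 * φ) (fun l => aX r X l - 2 * φ) Nf := by
  obtain ⟨uv, rv, hrv, hcv⟩ := hch.ch v H.vG
  have hvw := H.vw
  have hφ := H.φ0
  have hX := H.XK
  have hφX := H.φX
  have hkf := H.kfX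
  have hlam := H.lamk
  have hl1 := H.l1
  have hX0 : 0 ≤ X := H.X0.le
  have hrφ : 0 ≤ (r : ℝ) * φ := mul_nonneg (Nat.cast_nonneg r) hφ.le
  have hX1 : 32 * φ ≤ X := by linarith
  have hlX := H.lamX
  have ha : ∀ l < r, X ≤ aX r X l := fun l _ => aX_ge hX0 l
  have hak : ∀ l < r, 3 * aX r X l ≤ kf := fun l hl => (aX_le hX0 hl).trans hkf
  have hfv : ∀ i < r, sn i v - (v - v₀ i) - φ ≤ sn i (v₀ i) := fun i hi => by
    have := abs_le.1 (H.v₀G i hi).2.2.2
    linarith [this.2]
  have hv0 : ∀ i < r, v - 3 / 2 * aX r X i ≤ v₀ i ∧ v₀ i ≤ v - 9 / 8 * aX r X i :=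
    fun i hi => ⟨(H.v₀G i hi).2.1, (H.v₀G i hi).2.2.1⟩
  have hms : ∀ i < r, sn i v - φ ≤ min (pf i) (sn i v) := fun i hi =>
    le_min (hpf i hi) (by linarith)
  have hmv : ∀ i < r, sn i v - (v - v₀ i) - φ ≤ min (sn i (v₀ i)) (sn i v) := fun i hi =>
    le_min (hfv i hi) (by linarith [(hv0 i hi).2, ha i hi])
  refine
    { vn := hcv.w0
      v0 := fun i _ hi => ?_
      vv := fun i _ hi => by linarith [(hv0 i hi).2, ha i hi]
      vw := le_rfl
      σ0 := hφ
      wl := by linarith
      l1 := hl1.le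
      cw := ⟨uv, rv, hcv.take (Nat.zero_le _) (Nat.le_succ r), fun l _ hl => hrv l (by omega)⟩
      cv := ⟨uv, rv, hcv.take (Nat.zero_le _) (Nat.le_succ r), fun l _ hl => hrv l (by omega)⟩
      a0 := fun i _ hi => ?_
      w0 := fun l _ hl => by linarith [ha l hl]
      w1 := fun l _ hl j hj => ?_
      w2 := fun l _ hl => ?_
      w3 := fun l _ hl l' _ hl' => ?_
      w4 := fun l _ hl j hj => hNf l hl j hj
      w5 := fun l _ hl => ?_
      w6 := fun l _ hl l' _ hl' => ?_
      lv0 := fun l _ hl => by linarith [ha l hl]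
      h1 := fun l _ hl => ?_
      h2 := fun l _ hl => ?_
      h3 := fun i _ hi l _ hl => ?_
      h4 := fun i _ hi => ?_ }
  · obtain ⟨u', r', -, hc'⟩ := hch.ch (v₀ i) (H.v₀G i hi).1
    exact hc'.w0
  · obtain ⟨u', r', hr', hc'⟩ := hch.ch (v₀ i) (H.v₀G i hi).1
    exact ⟨r' i, hr' i (by omega), hc'.att i (Nat.zero_le _) (by omega)⟩
  · have h1 := hNf l hl j hj
    show sn l v + (aX r X l - 2 * φ) + φ ≤ Nf l j + (j : ℕ) * v
    unfold nX at h1
    linarith
  · have h1 := hak l hl
    have h2 := hms l hl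
    have h3 := ha l hl
    show sn l v + (aX r X l - 2 * φ) + φ ≤ min (pf l) (sn l v) + (v + lam - v)
    linarith
  · have h1 := aX_nest hX0 hl' hl
    have h2 := ha l hl
    have h3 := hms l hl
    show sn l v + (aX r X l - 2 * φ) + φ ≤ min (pf l) (sn l v) + (aX r X l' - 2 * φ)
    linarith
  · have h1 := hak l hl
    have h2 := ha l hl
    have h3 := hms l hl
    show nX r sn v X l + (v - v) + φ ≤ min (pf l) (sn l v) + (v + lam - v)
    unfold nX
    linarith
  · have h1 := aX_nest hX0 hl' hl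
    have h2 := ha l hl
    have h3 := hms l hl
    show nX r sn v X l + (v - v) + φ ≤ min (pf l) (sn l v) + (aX r X l' - 2 * φ)
    unfold nX
    linarith
  · show sn l v + (aX r X l - 2 * φ) + φ ≤ nX r sn v X l
    unfold nX
    linarith
  · have h1 := hak l hl
    have h2 := ha l hl
    have h3 := hmv l hl
    have h4 := hv0 l hl
    show nX r sn v X l + φ ≤ min (sn l (v₀ l)) (sn l v) + lam
    unfold nX
    linarith [h4.1]
  · have h1 := aX_nest hX0 hl hi
    have h2 := ha i hi
    have h3 := hmv i hi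
    have h4 := hv0 i hi
    show nX r sn v X i + φ ≤ min (sn i (v₀ i)) (sn i v) + (aX r X l - 2 * φ)
    unfold nX
    linarith [h4.1]
  · have h2 := ha i hi
    have h3 := hfv i hi
    have h4 := hv0 i hi
    show nX r sn v X i + φ ≤ sn i (v₀ i) + 2 * (v - v₀ i)
    unfold nX
    linarith [h4.2]

/-- **The near jets of the chain** over the labels of `v`, at the record of `v`. -/
theorem _root_.Pool.AJW.JfN.nearv (H : JfN r sn G v w X φ lam kf v₀ K) (htm : TmC S C₀)
    (hch : ChG S c (r + 1) sn G) (hpf : ∀ l < r, sn l v - φ ≤ pf l)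
    (hNf : ∀ l < r, ∀ j ≤ 1, nX r sn v X l - (j : ℕ) * v ≤ Nf l j) :
    JetA S (fun J F => ptr F J) (vg v) (fun _ F => F.T)
      (qJets m c 0 r 1 (fun _ _ => v) (fun l _ => pf l) Nf) c 0 r v (fun i => sn i v)
      (nX r sn v X) (φ / 8) := by
  obtain ⟨uv, rv, hrv, hcv⟩ := hch.ch v H.vG
  exact far_jetV htm (far_self hch H hpf hNf) le_rfl hcv.u0.le ptr_id (kn_T c _ _)

/-- **The near path over other labels of the same window.** -/
theorem _root_.Pool.AJW.JfN.paF (H : JfN r sn G v w X φ lam kf v₀ K) (htm : TmC S C₀)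
    (hch : ChG S c (r + 1) sn G) {nH nV : ℕ → ℝ}
    (hH : ∀ l < r, nX r sn v X l ≤ nH l) (hV : ∀ l < r, nX r sn v X l ≤ nV l + v)
    (hH' : ∀ l < r, nH l ≤ nX r sn v X l + X / 2)
    (hV' : ∀ l < r, nV l + v ≤ nX r sn v X l + X / 2) {h : ℝ} (hh : 0 < h) :
    F1 S (fun J F => ptr F J) (vg v) (fun _ F => F.T)
      (paQ m c r v (fun l => sn l v) nH nV) (paQ m c r v (fun l => sn l v) nH nV) (φ / 8) h := by
  obtain ⟨uv, rv, hrv, hcv⟩ := hch.ch v H.vG
  have hvw := H.vw
  have hφ := H.φ0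
  have hφX := H.φX
  have hX0 : 0 ≤ X := H.X0.le
  have hrφ : 0 ≤ (r : ℝ) * φ := mul_nonneg (Nat.cast_nonneg r) hφ.le
  have hX1 : 32 * φ ≤ X := by linarith
  have hlX := H.lamX
  have ha : ∀ l < r, X ≤ aX r X l := fun l _ => aX_ge hX0 l
  obtain ⟨l1, l2, l3, l4⟩ := H.lvs
  have hmin : min lam (v + lam - v) = lam := by
    have e1 : v + lam - v = lam := by ring
    rw [e1, min_self]
  have hnn : ∀ l < r, ∀ j ≤ 1, sn l v + aX r X l ≤
      (if j = 0 then nH l else nV l) + (j : ℕ) * v := by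
    intro l hl j hj
    rcases Nat.eq_zero_or_pos j with rfl | hj0
    · have h1 := hH l hl
      unfold nX at h1
      rw [if_pos rfl, Nat.cast_zero, zero_mul, add_zero]
      exact h1
    · obtain rfl : j = 1 := by omega
      have h1 := hV l hl
      unfold nX at h1
      rw [if_neg one_ne_zero, Nat.cast_one, one_mul]
      exact h1
  have hnn' : ∀ l < r, ∀ j ≤ 1, (if j = 0 then nH l else nV l) + (j : ℕ) * v ≤
      sn l v + aX r X l + X / 2 := by
    intro l hl j hj
    rcases Nat.eq_zero_or_pos j with rfl | hj0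
    · have h1 := hH' l hl
      unfold nX at h1
      rw [if_pos rfl, Nat.cast_zero, zero_mul, add_zero]
      exact h1
    · obtain rfl : j = 1 := by omega
      have h1 := hV' l hl
      unfold nX at h1
      rw [if_neg one_ne_zero, Nat.cast_one, one_mul]
      exact h1
  exact qjets_F1 htm (hcv.take (Nat.zero_le _) (Nat.le_succ r))
    (wv := fun _ _ => v) (pv := fun l _ => sn l v)
    (Nv := fun l j => if j = 0 then nH l else nV l) (wt := fun _ _ => v)
    (pt := fun l _ => sn l v) (Nt := fun l j => if j = 0 then nH l else nV l)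
    (p₀ := v + lam) (lam := lam) (σ := φ) (lw := fun l => aX r X l - 2 * φ)
    (fun _ _ _ _ _ => le_rfl) (fun _ _ _ _ _ => le_rfl) (by linarith) H.l1.le (by linarith) hφ
    (fun l _ hl => l1 l hl)
    (fun l _ hl j hj => by
      have h1 := hnn l hl j hj
      show sn l v + (aX r X l - 2 * φ) + φ ≤ (if j = 0 then nH l else nV l) + (j : ℕ) * v
      linarith)
    (fun l _ hl j hj => by
      rw [hmin]
      show sn l v + (aX r X l - 2 * φ) + φ ≤ min (sn l v) (sn l v) + lam
      rw [min_self]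
      linarith [l2 l hl])
    (fun l _ hl j hj l' _ hl' => by
      show sn l v + (aX r X l - 2 * φ) + φ ≤ min (sn l v) (sn l v) + (aX r X l' - 2 * φ)
      rw [min_self]
      linarith [l3 l hl l' hl'])
    (fun _ _ _ _ _ => le_rfl)
    (fun l _ hl j hj => by
      rw [hmin]
      have h1 := hnn' l hl j hj
      have h2 := (aX_le hX0 hl).trans H.kfX
      have h3 := ha l hl
      have h4 := H.lamk
      show (if j = 0 then nH l else nV l) + (j : ℕ) * v + φ ≤ min (sn l v) (sn l v) + lam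
      rw [min_self]
      linarith)
    (fun l _ hl j hj l' _ hl' => by
      have h1 := hnn' l hl j hj
      have h2 := aX_nest hX0 hl' hl
      have h3 := ha l hl
      show (if j = 0 then nH l else nV l) + (j : ℕ) * v + φ ≤
        min (sn l v) (sn l v) + (aX r X l' - 2 * φ)
      rw [min_self]
      linarith) ptr_id (kn_T c _ _) hh

/-- **The jets of a closed polynomial over the chain** at the record of `v`. -/
theorem _root_.Pool.AJW.JfN.selfvv (H : JfN r sn G v w X φ lam kf v₀ K) (htm : TmC S C₀)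
    (hch : ChG S c (r + 1) sn G)
    (hA : JetA S (fun J F => ptr F J) (vg v) (fun _ F => F.T) Q c 0 r v (fun i => sn i v)
      (nX r sn v X) e₁) {k : Fin m} (hk : k ∈ (range r).image c) {j : ℕ} {P N : ℝ}
    (h3 : N + j * v + 3 * φ ≤ P + X) {e h : ℝ} (he0 : 0 < e)
    (he1 : e ≤ e₁) (he : e ≤ φ / 8) (hh : 0 < h) :
    F1 S (fun J F => ptr F J) (vg v) (fun _ F => F.T) Q
      (qJet m ((range r).image c) k j v P N) e h := by
  obtain ⟨uv, rv, hrv, hcv⟩ := hch.ch v H.vG
  have hvw := H.vw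
  have hφ := H.φ0
  have hlX := H.lamX
  obtain ⟨l1, l2, l3, l4⟩ := H.lvs
  have hV := F1.qjets' (v := v) (p := fun i => sn i v) (n := nX r sn v X) (r₀ := 0) (r := r)
    (c := c) htm (j := j) (half_pos hh) (fun η' hη' i x y j' _ =>
      (hA η' hη' i x y j').mono he1 le_rfl)
  have key := self_F1 (lv := fun l => aX r X l - 2 * φ) (n := nX r sn v X)
    (p := fun i => sn i v) htm hk (j := j) (σ := φ) (e₁ := e) (η := h / 2) (h := h / 2) (N := N)
    (P := P) (lam := lam) (hcv.take (Nat.zero_le _) (Nat.le_succ r)) le_rfl hcv.u0.le hφ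
    (by linarith [H.X0]) H.l1.le (fun l _ hl => l1 l hl)
    (fun l _ hl => by
      show sn l v + (aX r X l - 2 * φ) + φ ≤ nX r sn v X l
      unfold nX
      linarith) (fun l _ hl => l2 l hl) (fun l _ hl l' _ hl' => l3 l hl l' hl')
    (by linarith [H.X0]) (fun l _ hl => by linarith [l4 l hl]) ptr_id (kn_T c _ _) he0
    (half_pos hh) (H.exv hch j) hV
  refine key.mono (le_min le_rfl he) (by linarith)

/-- **The jets of a coordinate over the chain**, other labels of the same window. -/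
theorem _root_.Pool.AJW.JfN.usame (H : JfN r sn G v w X φ lam kf v₀ K) (htm : TmC S C₀)
    (hch : ChG S c (r + 1) sn G)
    (hA : JetA S (fun J F => ptr F J) (vg v) (fun _ F => F.T) Q c 0 r v (fun i => sn i v)
      (nX r sn v X) e₁) {k : Fin m} {j : ℕ} {p₁ p₂ N N' : ℝ} (hN : N' ≤ N)
    (h3 : N' + j * v + 3 * φ ≤ min p₁ p₂ + X) {e h : ℝ} (he0 : 0 < e)
    (he1 : e ≤ e₁) (he : e ≤ φ / 8) (hh : 0 < h) :
    F1 S (fun J F => ptr F J) (vg v) (fun _ F => F.T)
      (Q.prod (qJet m ((range r).image c) k j v p₁ N))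
      (qJet m ((range r).image c) k j v p₂ N') e h := by
  obtain ⟨uv, rv, hrv, hcv⟩ := hch.ch v H.vG
  have hvw := H.vw
  have hφ := H.φ0
  have hlX := H.lamX
  have hX0 := H.X0
  obtain ⟨l1, l2, l3, l4⟩ := H.lvs
  have hmin : min lam (v + lam - v) = lam := by
    have e1 : v + lam - v = lam := by ring
    rw [e1, min_self]
  have hV := F1.qjets' (v := v) (p := fun i => sn i v) (n := nX r sn v X) (r₀ := 0) (r := r)
    (c := c) htm (j := j) (half_pos hh) (fun η' hη' i x y j' _ =>
      (hA η' hη' i x y j').mono he1 le_rfl)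
  have a3 : F1 S (fun J F => ptr F J) (vg v) (fun _ F => F.T)
      ((qJets m c 0 r j (fun _ _ => v) (fun l _ => sn l v)
        (fun l j' => nX r sn v X l - (j' : ℕ) * v)).prod
        (qJet m ((range r).image c) k j v p₁ N))
      (qJet m ((range r).image c) k j v p₂ N') e (h / 2) := by
    refine (jetN_F1 htm (hcv.take (Nat.zero_le _) (Nat.le_succ r)) (k := k)
      (lv := fun l => aX r X l - 2 * φ) (p₀ := v + lam) (lam := lam)
      (σ₀ := φ) (wv := fun _ _ => v) (pv := fun l _ => sn l v)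
      (Nv := fun l j' => nX r sn v X l - (j' : ℕ) * v)
      (fun _ _ _ _ _ => le_rfl) le_rfl le_rfl (by linarith only [hlX, hX0, hvw]) H.l1.le
      (by linarith only [hlX, hX0, hvw]) hφ (fun l _ hl => l1 l hl) ?_ ?_ ?_
      hN ?_ ?_ ptr_id (kn_T c _ _) (half_pos hh)).mono he le_rfl
    · intro l _ hl j' _
      show sn l v + (aX r X l - 2 * φ) + φ ≤ nX r sn v X l - (j' : ℕ) * v + j' * v
      unfold nX
      linarith only [hφ]
    · intro l _ hl j' _
      rw [hmin]
      show sn l v + (aX r X l - 2 * φ) + φ ≤ min (sn l v) (sn l v) + lam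
      rw [min_self]
      linarith only [l2 l hl]
    · intro l _ hl j' _ l' _ hl'
      show sn l v + (aX r X l - 2 * φ) + φ ≤ min (sn l v) (sn l v) + (aX r X l' - 2 * φ)
      rw [min_self]
      linarith only [l3 l hl l' hl']
    · rw [hmin]
      linarith only [h3, hlX, hvw, hφ]
    · intro l _ hl
      linarith only [h3, l4 l hl]
  have key : F1 S (fun J F => ptr F J) (vg v) (fun _ F => F.T)
      (Q.prod (qJet m ((range r).image c) k j v p₁ N))
      (qJet m ((range r).image c) k j v p₂ N') e (h / 2 + h / 2) := by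
    refine F1.cut htm (H.exv hch j) he0 (F1.pull htm (Q₁ := Q) (fun u => u.1)
      (fun _ _ _ _ _ _ hu => hu.1) hV)
      (F1.pull htm (Q₁ := (qJets m c 0 r j (fun _ _ => v) (fun l _ => sn l v)
        (fun l j' => nX r sn v X l - (j' : ℕ) * v)).prod
        (qJet m ((range r).image c) k j v p₁ N))
      (fun u => (u.2, u.1.2)) (fun _ _ _ _ _ _ hu => ⟨hu.2, hu.1.2⟩) a3)
  exact key.mono le_rfl (by linarith only)

/-- **The jets of a coordinate over the chain and one more place**, other labels of the early window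
`vn`. -/
theorem _root_.Pool.AJW.JfN.nsame (Hn : JfN r sn G vn v X φ lam kf vn₀ K) (htm : TmC S C₀)
    (hch : ChG S c (r + 1) sn G)
    (hAn : JetA S (fun J F => ptr F J) (vg v) (fun _ F => F.T) Q c 0 r vn (fun i => sn i vn)
      (nX r sn vn X) e₁) {k : Fin m} {j : ℕ}
    (h3 : sn r v + 2 * φ + (v - vn) ≤ min (sn r v) (sn r vn) + X) {e h : ℝ} (he0 : 0 < e)
    (he1 : e ≤ e₁) (he : e ≤ φ / 8) (hh : 0 < h) (heh : e ≤ h / (32 * ((r + 1) * (j + 1))))
    {p₁ p₂ N N' lr : ℝ} (hlr : 0 < lr) (h4 : sn r vn + lr + 2 * φ + j * (v - vn) ≤ sn r v)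
    (h5 : lr + 3 * φ ≤ X) (hN : N' ≤ N) (h6 : N' + j * vn + φ ≤ min p₁ p₂ + lr) :
    F1 S (fun J F => ptr F J) (vg v) (fun _ F => F.T)
      (Q.prod (qJet m ((range (r + 1)).image c) k j vn p₁ N))
      (qJet m ((range (r + 1)).image c) k j vn p₂ N') e h := by
  obtain ⟨uv, rv, hrv, hcv⟩ := hch.ch vn Hn.vG
  obtain ⟨uw, rw, hrw, hcw⟩ := hch.ch v Hn.wG
  have hvn := Hn.vw
  have hφ := Hn.φ0
  have hX0 := Hn.X0
  have hlX := Hn.lamX
  have hl1 := Hn.l1
  obtain ⟨l1, l2, l3, l4⟩ := Hn.lvs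
  have hmin : min lam (vn + lam - vn) = lam := by
    have e1 : vn + lam - vn = lam := by ring
    rw [e1, min_self]
  obtain ⟨Nv, hNv⟩ : ∃ Nv : ℕ → ℕ → ℝ, Nv = fun l j' => if l < r then
      nX r sn vn X l - (j' : ℕ) * vn else sn r v - φ - (j' : ℕ) * v := ⟨_, rfl⟩
  have hV := Hn.near1 Hn htm hch hAn hAn (j := j) h3 he0 he1 he (half_pos hh) (by
    have e1 : h / 2 / (16 * (((r : ℝ) + 1) * (j + 1))) = h / (32 * ((r + 1) * (j + 1))) := by
      rw [div_div]
      congr 1
      ring
    rw [e1]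
    exact heh)
  rw [← hNv] at hV
  have hex : Exs S (qJets m c 0 (r + 1) j (fun _ _ => vn) (fun l _ => sn l vn) Nv) :=
    exs_qjets fun i x y j' _ => exs_jet (hrv i y) (hcv.att i x y)
  have a3 : F1 S (fun J F => ptr F J) (vg v) (fun _ F => F.T)
      ((qJets m c 0 (r + 1) j (fun _ _ => vn) (fun l _ => sn l vn) Nv).prod
        (qJet m ((range (r + 1)).image c) k j vn p₁ N))
      (qJet m ((range (r + 1)).image c) k j vn p₂ N') e (h / 2) := by
    refine (F1.up hvn.le hcw.u0.le (jetN_F1 htm hcv (k := k)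
      (lv := fun l => if l < r then aX r X l - 2 * φ else lr) (p₀ := vn + lam) (lam := lam)
      (σ₀ := φ) (wv := fun _ _ => vn) (pv := fun l _ => sn l vn) (Nv := Nv)
      (fun _ _ _ _ _ => le_rfl) le_rfl le_rfl (by linarith only [hlX, hX0, hvn]) hl1.le
      (by linarith only [hlX, hX0, hvn]) hφ ?_ ?_ ?_ ?_
      hN ?_ ?_ ptr_id (kn_T c _ _) (half_pos hh))).mono he le_rfl
    · intro l _ hl
      by_cases h7 : l < r
      · rw [if_pos h7]
        exact l1 l h7
      · rw [if_neg h7]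
        exact hlr
    · intro l _ hl j' hj'
      rw [hNv]
      dsimp only
      by_cases h7 : l < r
      · rw [if_pos h7, if_pos h7]
        unfold nX
        linarith only [hφ]
      · obtain rfl : l = r := by omega
        rw [if_neg h7, if_neg h7]
        have h8 : (j' : ℝ) * (v - vn) ≤ j * (v - vn) :=
          mul_le_mul_of_nonneg_right (by exact_mod_cast hj') (by linarith)
        linarith only [h8, h4]
    · intro l _ hl j' _
      rw [hmin, min_self]
      by_cases h7 : l < r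
      · rw [if_pos h7]
        linarith only [l2 l h7]
      · rw [if_neg h7]
        linarith only [h5, hlX, hvn, hφ]
    · intro l _ hl j' _ l' _ hl'
      rw [min_self]
      have h8 : l' < r := by omega
      rw [if_pos h8]
      by_cases h7 : l < r
      · rw [if_pos h7]
        linarith only [l3 l h7 l' hl']
      · rw [if_neg h7]
        linarith only [l4 l' h8, h5, hφ]
    · rw [hmin]
      linarith only [h6, h5, hlX, hvn, hφ]
    · intro l _ hl
      by_cases h7 : l < r
      · rw [if_pos h7]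
        linarith only [l4 l h7, h6, h5, hφ]
      · rw [if_neg h7]
        exact h6
  have key : F1 S (fun J F => ptr F J) (vg v) (fun _ F => F.T)
      (Q.prod (qJet m ((range (r + 1)).image c) k j vn p₁ N))
      (qJet m ((range (r + 1)).image c) k j vn p₂ N') e (h / 2 + h / 2) := by
    refine F1.cut htm hex he0 (F1.pull htm (Q₁ := Q) (fun u => u.1)
      (fun _ _ _ _ _ _ hu => hu.1) hV)
      (F1.pull htm (Q₁ := (qJets m c 0 (r + 1) j (fun _ _ => vn) (fun l _ => sn l vn) Nv).prod
        (qJet m ((range (r + 1)).image c) k j vn p₁ N))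
      (fun u => (u.2, u.1.2)) (fun _ _ _ _ _ _ hu => ⟨hu.2, hu.1.2⟩) a3)
  exact key.mono le_rfl (by linarith only)

end Pool.TWO28
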