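import Pool.Agent.H28.TWO.Fam

/-!
# The two record comparison for the labels of a family

`ngp_a`, `ngp_b`: the comparison for codes from `NtW` (one jet of the first kind for each coordinate;
one jet of the second kind for each coordinate). `two_a`, `two_b`: the comparison `TwO` for a family of
pairs: the first label over the chain, the second one a label of an early window plus a closed
polynomial over the chain. `TwO.dig`: other digits.
-/

set_option autoImplicit false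

namespace Pool.TWO28

open Finset Real MvPolynomial
open Pool.Agent.H49.Ent Pool.Agent.H32.Dense Pool.STK Pool.KA Pool.KSAT Pool.K2S Pool.PB Pool.GEN
open Pool.S6C Pool.RCD Pool.LA91 Pool.OWN68 Pool.AJW Pool.PN18 Pool.LPK12
open Pool.GRD (LbP)
open Pool.LP30 (paQ)
open Pool.LPJ30 (jtR)
open Pool.LPT30 (twQ NgW NtW)

variable {m : ℕ} {S : PCl m} {C₀ : ℝ} {c : ℕ → Fin m} {r : ℕ} {sn : ℕ → ℝ → ℝ}

/-- The trivial quantity. -/
def tQ (m : ℕ) : Qt m Unit := Qt.fn fun _ _ _ => ()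

theorem exs_tQ : Exs S (tQ m) := by
  intro e _
  refine ⟨0, 0, ⟨1, one_pos, 0, fun J _ F A _ => ⟨fun _ => (), fun ω _ => rfl, ?_⟩⟩⟩
  classical
  have h1 : cnt F.p (fun _ : F.Ω => ()) A ≤ ({()} : Finset Unit).card :=
    cnt_le_card F.p _ _ fun ω _ _ => Finset.mem_singleton_self _
  have h2 : (cnt F.p (fun _ : F.Ω => ()) A : ℝ) ≤ (({()} : Finset Unit).card : ℕ) := by
    exact_mod_cast h1
  refine h2.trans ?_
  rw [Finset.card_singleton, Nat.cast_one]
  exact Real.one_le_exp (by simp)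

/-- Nothing is asked. -/
theorem ffr_tQ (htm : TmC S C₀) {a : ℝ} {U T : Type} {Qp : Qt m U} {Ψ : Fm2 m} {X : LqT m T}
    {e η : ℝ} (hη : 0 ≤ η) : Ffr S a Qp Ψ (tQ m) X e η := by
  intro K
  refine Bas.mono 0 (Pool.GRW.tmc_bas htm one_pos) ?_
  rintro J - F A ⟨hA, -⟩ V C z z' G₁ G₂ cc _ pa b _ _
  have h0 := (isLaw_cond F.isLaw hA).nonneg
  refine ⟨Unit, fun _ => (), ⟨⟨fun _ => (), fun _ _ => rfl⟩, fun _ => (), fun _ _ => rfl⟩, ?_⟩
  rw [CH_eq_zero h0 fun _ _ _ _ _ => rfl]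
  exact mul_nonneg hη (Nat.cast_nonneg J)

/-- **The comparison for codes**, first kind. -/
theorem ngp_a (htm : TmC S C₀) {kA kT : Fin m} {i j : ℕ} {kB kU : Fin 0 → Fin m}
    {oB oU : Fin 0 → ℕ} {TB TU : Fin 0 → ℝ → ℝ} {Tu Tn : ℝ → ℝ} {nH nV : ℕ → ℝ}
    {nB nW : Fin 0 → ℝ} {v vn x y o κ : ℝ}
    (HN : NtW S c r (fun _ : Fin 1 => kA) (fun _ => i) kB oB sn (fun _ => Tu) TB
      (fun _ : Fin 1 => kT) (fun _ => j) (fun _ => Tn) kU oU TU nH nV nB nW v vn x y o κ) :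
    NgP S (paQ m c r v (fun l => sn l v) nH nV)
      ((qJet m ((range r).image c) kA i v (Tu v) (Tu o - i * o)).prod
        (qJet m ((range (r + 1)).image c) kT j vn (Tn vn) (Tn o - j * o)))
      ((qJet m ((range r).image c) kA i v (Tu v) (Tu y - i * y)).prod
        (qJet m ((range (r + 1)).image c) kT j vn (Tn vn) (Tn y - j * y))) x y κ := by
  obtain ⟨κ₁, hκ₁, e₀, he₀, H⟩ := HN
  refine ⟨κ₁, hκ₁, e₀, he₀, fun K => Bas.mono 0 ((H K).and (Pool.GRW.tmc_bas htm one_pos)) ?_⟩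
  rintro J - F A ⟨H, hA, -⟩ V z V' z' hz hz' a b pa ha hb hpa
  have h0 := (isLaw_cond F.isLaw hA).nonneg
  have key := (H V z V' z' hz hz' (fun ω => ((fun _ => (a ω).1), (fun _ => (a ω).2)))
    (fun ω => ((fun _ => (b ω).1), (fun _ => (b ω).2)))
    (fun _ => ((fun l => l.elim0), (fun l => l.elim0))) pa
    ⟨fun _ => ha.1, fun _ => ha.2⟩ ⟨fun _ => hb.1, fun _ => hb.2⟩
    ⟨fun l => l.elim0, fun l => l.elim0⟩ hpa).2
  have e1 : CH (Pool.Agent.H49.Ent.cond F.p A True) a (fun ω => (b ω, (pa ω, (z ω, F.W ω)))) ≤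
      CH (Pool.Agent.H49.Ent.cond F.p A True)
        (fun ω => ((fun _ : Fin 1 => (a ω).1), (fun _ : Fin 1 => (a ω).2)))
        (fun ω => (((fun _ : Fin 1 => (b ω).1), (fun _ : Fin 1 => (b ω).2)),
          ((pa ω, ((fun l : Fin 0 => (l.elim0 : ℤ)), (fun l : Fin 0 => (l.elim0 : ℤ)))),
            (z ω, F.W ω)))) := by
    refine (CH_mono_cond h0 fun ω ω' _ _ hh => ?_).trans
      (CH_mono_left h0 fun ω ω' _ _ hh => ?_)
    · simp only [Prod.mk.injEq] at hh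
      rw [hh.1, hh.2.1, hh.2.2.1, hh.2.2.2]
    · have h1 := (Prod.ext_iff.mp hh).1
      simp only [Prod.mk.injEq] at h1
      exact Prod.ext (congrFun h1.1 0) (congrFun h1.2 0)
  have e2 : CH (Pool.Agent.H49.Ent.cond F.p A True)
        (fun ω => ((fun _ : Fin 1 => (a ω).1), (fun _ : Fin 1 => (a ω).2)))
        (fun ω => ((pa ω, ((fun l : Fin 0 => (l.elim0 : ℤ)), (fun l : Fin 0 => (l.elim0 : ℤ)))),
            (z' ω, F.W ω))) ≤
      CH (Pool.Agent.H49.Ent.cond F.p A True) a (fun ω => (pa ω, (z' ω, F.W ω))) := by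
    refine (CH_mono_cond h0 fun ω ω' _ _ hh => ?_).trans
      (CH_mono_left h0 fun ω ω' _ _ hh => ?_)
    · simp only [Prod.mk.injEq] at hh ⊢
      exact ⟨hh.1.1, hh.2⟩
    · have h1 : a ω = a ω' := (Prod.ext_iff.mp hh).1
      show ((fun _ : Fin 1 => (a ω).1), (fun _ : Fin 1 => (a ω).2)) =
        ((fun _ : Fin 1 => (a ω').1), (fun _ : Fin 1 => (a ω').2))
      rw [h1]
  exact e1.trans (key.trans (add_le_add e2 le_rfl))

/-- **The comparison for codes**, second kind. -/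
theorem ngp_b (htm : TmC S C₀) {kB kU : Fin m} {i j : ℕ} {kA kT : Fin 0 → Fin m}
    {oA oT : Fin 0 → ℕ} {TA TT : Fin 0 → ℝ → ℝ} {Tu Tn : ℝ → ℝ} {nH nV : ℕ → ℝ}
    {n₁ n₂ v vn x y o κ : ℝ}
    (HN : NtW S c r kA oA (fun _ : Fin 1 => kB) (fun _ => i) sn TA (fun _ => Tu)
      kT oT TT (fun _ : Fin 1 => kU) (fun _ => j) (fun _ => Tn) nH nV (fun _ => n₁) (fun _ => n₂)
      v vn x y o κ) :
    NgP S (paQ m c r v (fun l => sn l v) nH nV)
      ((qJet m ((range r).image c) kB i v (Tu v) n₁).prod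
        (qJet m ((range (r + 1)).image c) kU j vn (Tn vn) n₂)) (tQ m) x y κ := by
  obtain ⟨κ₁, hκ₁, e₀, he₀, H⟩ := HN
  refine ⟨κ₁, hκ₁, e₀, he₀, fun K => Bas.mono 0 ((H K).and (Pool.GRW.tmc_bas htm one_pos)) ?_⟩
  rintro J - F A ⟨H, hA, -⟩ V z V' z' hz hz' a b pa ha _ hpa
  have h0 := (isLaw_cond F.isLaw hA).nonneg
  have key := (H V z V' z' hz hz' (fun _ => ((fun l => l.elim0), (fun l => l.elim0)))
    (fun _ => ((fun l => l.elim0), (fun l => l.elim0)))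
    (fun ω => ((fun _ => (a ω).1), (fun _ => (a ω).2))) pa
    ⟨fun l => l.elim0, fun l => l.elim0⟩ ⟨fun l => l.elim0, fun l => l.elim0⟩
    ⟨fun _ => ha.1, fun _ => ha.2⟩ hpa).1
  have e1 : CH (Pool.Agent.H49.Ent.cond F.p A True) a (fun ω => (b ω, (pa ω, (z ω, F.W ω)))) ≤
      CH (Pool.Agent.H49.Ent.cond F.p A True)
        (fun ω => ((fun _ : Fin 1 => (a ω).1), (fun _ : Fin 1 => (a ω).2)))
        (fun ω => (pa ω, (z ω, F.W ω))) := by
    refine (CH_mono_cond h0 fun ω ω' _ _ hh => ?_).trans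
      (CH_mono_left h0 fun ω ω' _ _ hh => ?_)
    · exact (Prod.ext_iff.mp hh).2
    · have h1 := (Prod.ext_iff.mp hh).1
      simp only [Prod.mk.injEq] at h1
      exact Prod.ext (congrFun h1.1 0) (congrFun h1.2 0)
  have e2 : CH (Pool.Agent.H49.Ent.cond F.p A True)
        (fun ω => ((fun _ : Fin 1 => (a ω).1), (fun _ : Fin 1 => (a ω).2)))
        (fun ω => (pa ω, (z' ω, F.W ω))) ≤
      CH (Pool.Agent.H49.Ent.cond F.p A True) a (fun ω => (pa ω, (z' ω, F.W ω))) := by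
    refine CH_mono_left h0 fun ω ω' _ _ hh => ?_
    have h1 : a ω = a ω' := (Prod.ext_iff.mp hh).1
    show ((fun _ : Fin 1 => (a ω).1), (fun _ : Fin 1 => (a ω).2)) =
      ((fun _ : Fin 1 => (a ω').1), (fun _ : Fin 1 => (a ω').2))
    rw [h1]
  exact e1.trans (key.trans (add_le_add e2 le_rfl))

variable {G : Set ℝ} {v w vn X φ lam kf : ℝ} {v₀ vn₀ : ℕ → ℝ} {K : ℕ}

/-- **The numbers of the near path.** -/
structure PaN (r : ℕ) (sn : ℕ → ℝ → ℝ) (v X φ : ℝ) (nH nV : ℕ → ℝ) : Prop where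
  lh : ∀ l < r, nX r sn v X l + φ ≤ nH l
  lv : ∀ l < r, nX r sn v X l + φ ≤ nV l + v
  uh : ∀ l < r, nH l ≤ nX r sn v X l + X / 2
  uv : ∀ l < r, nV l + v ≤ nX r sn v X l + X / 2

/-- The near jets of the chain over `v` and over the early window `vn`, the near path given. -/
theorem pan_jet (htm : TmC S C₀) (hch : ChG S c (r + 1) sn G)
    (H : JfN r sn G v w X φ lam kf v₀ K) (Hn : JfN r sn G vn v X φ lam kf vn₀ K)
    {nH nV : ℕ → ℝ} (hp : PaN r sn v X φ nH nV) :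
    JetA S (fun J F => ptr F J) (vg v) (fun _ F => F.T)
      (paQ m c r v (fun l => sn l v) nH nV) c 0 r v (fun i => sn i v) (nX r sn v X) (φ / 8) ∧
    JetA S (fun J F => ptr F J) (vg v) (fun _ F => F.T)
      (paQ m c r v (fun l => sn l v) nH nV) c 0 r vn (fun i => sn i vn) (nX r sn vn X) (φ / 8) := by
  have hφ := H.φ0
  have hvn := Hn.vw
  refine ⟨H.nearv htm hch (fun l _ => by linarith) fun l hl j hj => ?_,
    Hn.near_n htm hch (fun l _ => by linarith) fun l hl j hj => ?_⟩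
  · rcases Nat.eq_zero_or_pos j with rfl | hj0
    · have h1 := hp.lh l hl
      rw [if_pos rfl, Nat.cast_zero, zero_mul]
      linarith
    · obtain rfl : j = 1 := by omega
      have h1 := hp.lv l hl
      rw [if_neg one_ne_zero, Nat.cast_one, one_mul]
      linarith
  · have h2 := abs_le.1 (Hn.fl l hl)
    rcases Nat.eq_zero_or_pos j with rfl | hj0
    · have h1 := hp.lh l hl
      rw [if_pos rfl, Nat.cast_zero, zero_mul]
      unfold nX at h1 ⊢
      linarith [h2.1]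
    · obtain rfl : j = 1 := by omega
      have h1 := hp.lv l hl
      rw [if_neg one_ne_zero, Nat.cast_one, one_mul]
      unfold nX at h1 ⊢
      linarith [h2.1]

/-- **The numbers of a pair of jets**: digits `N₁`, `N₂` over the labels of `v` and of `vn`; `P₁`, `P₂`
bounds for the precisions of the labels. -/
structure PrN (sn : ℕ → ℝ → ℝ) (r i j : ℕ) (v vn X φ lr P₁ P₂ P₂' N₁ N₂ : ℝ) : Prop where
  u : N₁ + i * v + 3 * φ ≤ P₁ + X
  n : N₂ + j * vn + φ ≤ P₂ + lr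
  s : N₂ + j * v + 3 * φ ≤ P₂' + X

/-- **The numbers of the labels**: the level `lr` of the place `r` over the early window. -/
structure LvN (sn : ℕ → ℝ → ℝ) (r j : ℕ) (v vn X φ lr : ℝ) : Prop where
  l0 : 0 < lr
  l1 : sn r vn + lr + 2 * φ + j * (v - vn) ≤ sn r v
  l2 : lr + 3 * φ ≤ X
  l3 : sn r v + 2 * φ + (v - vn) ≤ min (sn r v) (sn r vn) + X

section

variable {U : Type} {Qp : Qt m U} {Ψ : Fm2 m} {Kd K₁ : ℕ} {κ₂ : Fin m}
  {lamΨ e E₂ r₂ p₂ En Rn Pn Pc : ℝ} {E rd p n : ℕ → ℝ} {i j : ℕ} {lr : ℝ}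

/-- **From the codes to the jets over the labels of the family.** -/
theorem fam_to (htm : TmC S C₀) (hr : 1 ≤ r) (hch : ChG S c (r + 1) sn G)
    (H : JfN r sn G v w X φ lam kf v₀ K) (Hn : JfN r sn G vn v X φ lam kf vn₀ K)
    (hA : JetA S (fun J F => ptr F J) (vg v) (fun _ F => F.T) Qp c 0 r v (fun i => sn i v)
      (nX r sn v X) (φ / 8))
    (hAn : JetA S (fun J F => ptr F J) (vg v) (fun _ F => F.T) Qp c 0 r vn (fun i => sn i vn)
      (nX r sn vn X) (φ / 8))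
    (hΨ : PsL Ψ c r Kd ((range (r + 1)).image c) κ₂ v lamΨ e E₂ r₂ p₂ E rd p n)
    (hD : Dcp2 Ψ ((range r).image c) ((range (r + 1)).image c) κ₂ K₁ vn v En Rn Pn e)
    (he : 0 < e) (heφ : e ≤ φ / 16) {h : ℝ} (hh : 0 < h)
    (heh : e ≤ h / (32 * ((r + 1) * (j + 1)))) (hL : LvN sn r j v vn X φ lr)
    (hσ : φ / 8 ≤ min Pn p₂) {N₁ N₂ M₁ M₂ : ℝ} (h1 : M₁ ≤ N₁) (h2 : M₂ ≤ N₂)
    (hN : PrN sn r i j v vn X φ lr (min (sn r v) (p r)) (min Pc Pn) (min Pn p₂) M₁ M₂) :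
    Fto S v Qp Ψ ((qJet m ((range r).image c) (c r) i v (sn r v) N₁).prod
      (qJet m ((range (r + 1)).image c) κ₂ j vn Pc N₂)) ((ox1 (c r) v M₁ i).pr (ox2 κ₂ v M₂ j))
      e (4 * h) := by
  have hφ := H.φ0
  have hk : c 0 ∈ (range r).image c := Finset.mem_image_of_mem c (Finset.mem_range.2 (by omega))
  have a1 := fto_u htm hΨ le_rfl (H.usame htm hch hA (k := c r) (j := i) (p₁ := sn r v)
    (p₂ := p r) h1 hN.u he (by linarith) (by linarith) hh)
  have a2 := fto_n (pc := Pc) (N := N₂) htm hk he le_rfl (e'' := φ / 8) (by linarith) hσ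
    (min_le_left _ _) (min_le_right _ _) hh
    (H.selfvv htm hch hA hk hN.s (e := φ / 8) (by positivity) le_rfl le_rfl hh)
    (fun J F A V C z z' G₁ G₂ cc h1 => (hΨ.1 J F A V C z z' G₁ G₂ cc h1).2) hD
    (Hn.nsame htm hch hAn (k := κ₂) (j := j) hL.l3 he (by linarith) (by linarith) hh heh hL.l0
      hL.l1 hL.l2 h2 hN.n)
  exact (a1.pair htm a2).mono le_rfl (by linarith)

/-- **From the jets over the labels of the family to the codes.** -/
theorem fam_fr (htm : TmC S C₀) (hr : 1 ≤ r) (hch : ChG S c (r + 1) sn G)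
    (H : JfN r sn G v w X φ lam kf v₀ K) (Hn : JfN r sn G vn v X φ lam kf vn₀ K)
    {a : ℝ} (hva : v ≤ a) (ha : a ≤ 1)
    (hA : JetA S (fun J F => ptr F J) (vg v) (fun _ F => F.T) Qp c 0 r v (fun i => sn i v)
      (nX r sn v X) (φ / 8))
    (hAn : JetA S (fun J F => ptr F J) (vg v) (fun _ F => F.T) Qp c 0 r vn (fun i => sn i vn)
      (nX r sn vn X) (φ / 8))
    (hΨ : PsL Ψ c r Kd ((range (r + 1)).image c) κ₂ v lamΨ e E₂ r₂ p₂ E rd p n)
    (hD : Dcp2 Ψ ((range r).image c) ((range (r + 1)).image c) κ₂ K₁ vn v En Rn Pn e)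
    (he : 0 < e) (heφ : e ≤ φ / 16) {h : ℝ} (hh : 0 < h)
    (heh : e ≤ h / (32 * ((r + 1) * (j + 1)))) (hL : LvN sn r j v vn X φ lr)
    (hσ : φ / 8 ≤ min Pn p₂) {N₁ N₂ M₁ M₂ : ℝ} (h1 : N₁ ≤ M₁) (h2 : N₂ ≤ M₂)
    (hN : PrN sn r i j v vn X φ lr (min (p r) (sn r v)) (min Pn Pc) (min Pn p₂) N₁ N₂)
    (hs : M₂ + j * v + 3 * φ ≤ min Pn p₂ + X) :
    Ffr S a Qp Ψ ((qJet m ((range r).image c) (c r) i v (sn r v) N₁).prod
      (qJet m ((range (r + 1)).image c) κ₂ j vn Pc N₂)) ((ox1 (c r) v M₁ i).pr (ox2 κ₂ v M₂ j))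
      e (4 * h) := by
  have hφ := H.φ0
  have hk : c 0 ∈ (range r).image c := Finset.mem_image_of_mem c (Finset.mem_range.2 (by omega))
  have a1 := ffr_u htm hΨ le_rfl (F1.up hva ha (H.usame htm hch hA (k := c r) (j := i)
    (p₁ := p r) (p₂ := sn r v) h1 hN.u he (by linarith) (by linarith) hh))
  have a2 := ffr_n (pc := Pc) (N := N₂) htm hk he le_rfl (e'' := φ / 8) (by linarith) hσ
    (min_le_left _ _) (min_le_right _ _) hh
    (F1.up hva ha (H.selfvv htm hch hA hk hs (e := φ / 8) (by positivity) le_rfl le_rfl hh))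
    (fun J F A V C z z' G₁ G₂ cc h1 => (hΨ.1 J F A V C z z' G₁ G₂ cc h1).2) hD
    (F1.up hva ha (Hn.nsame htm hch hAn (k := κ₂) (j := j) hL.l3 he (by linarith) (by linarith)
      hh heh hL.l0 hL.l1 hL.l2 h2 hN.n))
  exact (a1.pair htm a2).mono le_rfl (by linarith)

end

end Pool.TWO28
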